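import Mathlib

set_option autoImplicit false

namespace Pool.Agent.Helper38.Klein

/-- Data in a group `M`: two commuting involutions `a`, `b` whose common centraliser is the Klein
four group, together with elements realising enough automorphisms of that four group. -/
structure Oct (M : Type) [Group M] where
  a : M
  b : M
  d : M
  e : M
  ha : a ≠ 1
  haa : a * a = 1
  hbb : b * b = 1
  hab : a * b = b * a
  hcent : ∀ g : M, g * a = a * g → g * b = b * g → g = 1 ∨ g = a ∨ g = b ∨ g = a * b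
  hd : d * d = a
  hdb : d * b * d⁻¹ = a * b
  hea : e * a * e⁻¹ = b
  heb : e * b * e⁻¹ = a

variable {M : Type} [Group M] (O : Oct M)

namespace Oct

/-- The four group. -/
def V : Subgroup M := Subgroup.centralizer {O.a, O.b}

lemma mem_V_iff {g : M} : g ∈ O.V ↔ g * O.a = O.a * g ∧ g * O.b = O.b * g := by
  simp only [V, Subgroup.mem_centralizer_iff, Set.mem_insert_iff, Set.mem_singleton_iff,
    forall_eq_or_imp, forall_eq]
  constructor
  · rintro ⟨h1, h2⟩; exact ⟨h1.symm, h2.symm⟩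
  · rintro ⟨h1, h2⟩; exact ⟨h1.symm, h2.symm⟩

lemma mem_V {g : M} : g ∈ O.V ↔ g = 1 ∨ g = O.a ∨ g = O.b ∨ g = O.a * O.b := by
  constructor
  · intro h
    obtain ⟨h1, h2⟩ := O.mem_V_iff.mp h
    exact O.hcent g h1 h2
  · rw [mem_V_iff]
    rintro (rfl | rfl | rfl | rfl)
    · simp
    · exact ⟨rfl, O.hab⟩
    · exact ⟨O.hab.symm, rfl⟩
    · constructor
      · rw [mul_assoc, ← O.hab]
      · rw [← mul_assoc, ← O.hab]

lemma one_mem_V : (1 : M) ∈ O.V := one_mem _
lemma a_mem_V : O.a ∈ O.V := O.mem_V.mpr (Or.inr (Or.inl rfl))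
lemma b_mem_V : O.b ∈ O.V := O.mem_V.mpr (Or.inr (Or.inr (Or.inl rfl)))
lemma ab_mem_V : O.a * O.b ∈ O.V := O.mem_V.mpr (Or.inr (Or.inr (Or.inr rfl)))

/-- The octahedral subgroup. -/
def H : Subgroup M := Subgroup.normalizer (O.V : Set M)

lemma mem_H {t : M} : t ∈ O.H ↔ ∀ v, v ∈ O.V ↔ t * v * t⁻¹ ∈ O.V := by
  rw [H, Subgroup.mem_normalizer_iff]

lemma V_le_H : O.V ≤ O.H := Subgroup.le_normalizer

lemma conj_mem {t v : M} (ht : t ∈ O.H) (hv : v ∈ O.V) : t * v * t⁻¹ ∈ O.V :=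
  (O.mem_H.mp ht v).mp hv

lemma mem_H_of_finite [Finite M] {t : M} (h : ∀ v ∈ O.V, t * v * t⁻¹ ∈ O.V) : t ∈ O.H := by
  classical
  have hfin : Finite O.V := inferInstance
  rw [mem_H]
  intro v
  refine ⟨h v, fun hv => ?_⟩
  let f : O.V → O.V := fun w => ⟨t * w * t⁻¹, h w w.2⟩
  have hinj : Function.Injective f := by
    intro x y hxy
    have := congrArg Subtype.val hxy
    simp only [f] at this
    apply Subtype.ext
    simpa using this
  obtain ⟨w, hw⟩ := Finite.surjective_of_injective hinj ⟨_, hv⟩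
  have h1 := congrArg Subtype.val hw
  simp only [f] at h1
  have h2 : (w : M) = v := by simpa using h1
  rw [← h2]; exact w.2

lemma d_a : O.d * O.a * O.d⁻¹ = O.a := by
  rw [← O.hd]; group

lemma hdab : O.d * (O.a * O.b) * O.d⁻¹ = O.b := by
  have h1 : O.d * (O.a * O.b) * O.d⁻¹ = (O.d * O.a * O.d⁻¹) * (O.d * O.b * O.d⁻¹) := by group
  rw [h1, d_a, O.hdb, ← mul_assoc, O.haa, one_mul]

lemma heab : O.e * (O.a * O.b) * O.e⁻¹ = O.a * O.b := by
  have h1 : O.e * (O.a * O.b) * O.e⁻¹ = (O.e * O.a * O.e⁻¹) * (O.e * O.b * O.e⁻¹) := by group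
  rw [h1, O.hea, O.heb, O.hab]

lemma d_mem_H [Finite M] : O.d ∈ O.H := by
  apply O.mem_H_of_finite
  intro v hv
  rcases O.mem_V.mp hv with rfl | rfl | rfl | rfl
  · simp
  · rw [d_a]; exact O.a_mem_V
  · rw [O.hdb]; exact O.ab_mem_V
  · rw [O.hdab]; exact O.b_mem_V

lemma e_mem_H [Finite M] : O.e ∈ O.H := by
  apply O.mem_H_of_finite
  intro v hv
  rcases O.mem_V.mp hv with rfl | rfl | rfl | rfl
  · simp
  · rw [O.hea]; exact O.b_mem_V
  · rw [O.heb]; exact O.a_mem_V
  · rw [O.heab]; exact O.ab_mem_V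

/-- Every element of `V` is a square of an element of `H`. -/
lemma exists_sq [Finite M] {v : M} (hv : v ∈ O.V) : ∃ w ∈ O.H, w * w = v := by
  rcases O.mem_V.mp hv with rfl | rfl | rfl | rfl
  · exact ⟨1, one_mem _, by simp⟩
  · exact ⟨O.d, O.d_mem_H, O.hd⟩
  · refine ⟨O.e * O.d * O.e⁻¹, mul_mem (mul_mem O.e_mem_H O.d_mem_H) (inv_mem O.e_mem_H), ?_⟩
    have : O.e * O.d * O.e⁻¹ * (O.e * O.d * O.e⁻¹) = O.e * (O.d * O.d) * O.e⁻¹ := by group
    rw [this, O.hd, O.hea]
  · refine ⟨O.d * (O.e * O.d * O.e⁻¹) * O.d⁻¹, mul_mem (mul_mem O.d_mem_H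
      (mul_mem (mul_mem O.e_mem_H O.d_mem_H) (inv_mem O.e_mem_H))) (inv_mem O.d_mem_H), ?_⟩
    have : O.d * (O.e * O.d * O.e⁻¹) * O.d⁻¹ * (O.d * (O.e * O.d * O.e⁻¹) * O.d⁻¹) =
      O.d * (O.e * (O.d * O.d) * O.e⁻¹) * O.d⁻¹ := by group
    rw [this, O.hd, O.hea, O.hdb]

lemma b_ne_one : O.b ≠ 1 := by
  intro h
  apply O.ha
  rw [← O.heb, h]; group

lemma b_ne_ab : O.b ≠ O.a * O.b := by
  intro h
  apply O.ha
  have : 1 * O.b = O.a * O.b := by rw [one_mul]; exact h
  exact (mul_right_cancel this).symm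

lemma a_ne_b : O.a ≠ O.b := by
  intro h
  have h1 := O.hdb
  rw [← h, d_a, O.haa] at h1
  exact O.ha h1

lemma v_sq {v : M} (hv : v ∈ O.V) : v * v = 1 := by
  rcases O.mem_V.mp hv with rfl | rfl | rfl | rfl
  · simp
  · exact O.haa
  · exact O.hbb
  · calc O.a * O.b * (O.a * O.b) = O.a * O.b * (O.b * O.a) := by rw [O.hab]
      _ = O.a * (O.b * O.b) * O.a := by group
      _ = 1 := by rw [O.hbb, mul_one, O.haa]

/-- If `h` normalises `V` and `h ^ 4 = 1` then `h ^ 2` lies in `V`. -/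
lemma sq_mem {h : M} (hh : h ∈ O.H) (h4 : h * h * (h * h) = 1) : h * h ∈ O.V := by
  have ha' : h * O.a * h⁻¹ ∈ O.V := O.conj_mem hh O.a_mem_V
  have hb' : h * O.b * h⁻¹ ∈ O.V := O.conj_mem hh O.b_mem_V
  have hne : ∀ v, v ≠ 1 → h * v * h⁻¹ ≠ 1 := by
    intro v hv h1
    apply hv
    have : v = h⁻¹ * (h * v * h⁻¹) * h := by group
    rw [this, h1]; group
  have hmul : h * (O.a * O.b) * h⁻¹ = (h * O.a * h⁻¹) * (h * O.b * h⁻¹) := by group
  have hneab : h * O.a * h⁻¹ ≠ h * O.b * h⁻¹ := by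
    intro h1
    apply O.a_ne_b
    have := mul_right_cancel h1
    exact mul_left_cancel this
  -- squares of conjugation
  have hsq : ∀ v, h * h * v * (h * h)⁻¹ = h * (h * v * h⁻¹) * h⁻¹ := by intro v; group
  -- fourth power
  have h4' : ∀ v, h * h * (h * h * v * (h * h)⁻¹) * (h * h)⁻¹ = v := by
    intro v
    have : h * h * (h * h * v * (h * h)⁻¹) * (h * h)⁻¹ =
      (h * h * (h * h)) * v * (h * h * (h * h))⁻¹ := by group
    rw [this, h4]; group
  have key : h * h * O.a * (h * h)⁻¹ = O.a ∧ h * h * O.b * (h * h)⁻¹ = O.b := by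
    rcases O.mem_V.mp ha' with h1 | h1 | h1 | h1
    · exact absurd h1 (hne _ O.ha)
    · rcases O.mem_V.mp hb' with h2 | h2 | h2 | h2
      · exact absurd h2 (hne _ O.b_ne_one)
      · exact absurd (h1.trans h2.symm) hneab
      · exact ⟨by rw [hsq, h1, h1], by rw [hsq, h2, h2]⟩
      · refine ⟨by rw [hsq, h1, h1], ?_⟩
        rw [hsq, h2, hmul, h1, h2, ← mul_assoc, O.haa, one_mul]
    · rcases O.mem_V.mp hb' with h2 | h2 | h2 | h2
      · exact absurd h2 (hne _ O.b_ne_one)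
      · exact ⟨by rw [hsq, h1, h2], by rw [hsq, h2, h1]⟩
      · exact absurd (h1.trans h2.symm) hneab
      · -- a → b → ab → a
        exfalso
        have h3 : h * (O.a * O.b) * h⁻¹ = O.a := by
          rw [hmul, h1, h2, O.hab, ← mul_assoc, O.hbb, one_mul]
        have h5 := h4' O.a
        rw [hsq O.a, h1, h2, hsq, h3, h1] at h5
        exact O.a_ne_b h5.symm
    · rcases O.mem_V.mp hb' with h2 | h2 | h2 | h2
      · exact absurd h2 (hne _ O.b_ne_one)
      · -- a → ab → b → a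
        exfalso
        have h3 : h * (O.a * O.b) * h⁻¹ = O.b := by
          rw [hmul, h1, h2, O.hab, mul_assoc, O.haa, mul_one]
        have h5 := h4' O.b
        rw [hsq O.b, h2, h1, hsq, h3, h2] at h5
        exact O.a_ne_b h5
      · have h3 : h * (O.a * O.b) * h⁻¹ = O.a := by
          rw [hmul, h1, h2, mul_assoc, O.hbb, mul_one]
        exact ⟨by rw [hsq, h1, h3], by rw [hsq, h2, h2]⟩
      · exact absurd (h1.trans h2.symm) hneab
  rw [mem_V_iff]
  exact ⟨mul_inv_eq_iff_eq_mul.mp key.1, mul_inv_eq_iff_eq_mul.mp key.2⟩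

/-- The octahedral group is self-normalising. -/
lemma self_normalizing [Finite M] {t : M} (ht : ∀ f ∈ O.H, t * f * t⁻¹ ∈ O.H) : t ∈ O.H := by
  apply O.mem_H_of_finite
  intro v hv
  obtain ⟨w, hw, rfl⟩ := O.exists_sq hv
  have h1 : t * (w * w) * t⁻¹ = (t * w * t⁻¹) * (t * w * t⁻¹) := by group
  rw [h1]
  apply O.sq_mem (ht w hw)
  have h2 : t * w * t⁻¹ * (t * w * t⁻¹) * (t * w * t⁻¹ * (t * w * t⁻¹)) =
    t * ((w * w) * (w * w)) * t⁻¹ := by group
  rw [h2, O.v_sq hv]; group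

/-- The octahedral group has trivial centre. -/
lemma center_trivial [Finite M] {z : M} (hz : ∀ f ∈ O.H, z * f = f * z) : z = 1 := by
  have hzV : z ∈ O.V := O.mem_V_iff.mpr
    ⟨hz _ (O.V_le_H O.a_mem_V), hz _ (O.V_le_H O.b_mem_V)⟩
  have hd := hz _ O.d_mem_H
  have he := hz _ O.e_mem_H
  rcases O.mem_V.mp hzV with h | h | h | h
  · exact h
  · exfalso
    have h1 := O.hea
    rw [← h, ← he, mul_inv_cancel_right] at h1
    exact O.a_ne_b (h.symm.trans h1)
  · exfalso
    have h1 := O.heb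
    rw [← h, ← he, mul_inv_cancel_right] at h1
    exact O.a_ne_b (h1.symm.trans h)
  · exfalso
    have h1 := O.hdab
    rw [← h, ← hd, mul_inv_cancel_right] at h1
    exact O.b_ne_ab (h1.symm.trans h)

lemma card_V_le : Nat.card O.V ≤ 4 := by
  classical
  have h : (O.V : Set M) ⊆ (({1, O.a, O.b, O.a * O.b} : Finset M) : Set M) := by
    intro g hg
    have := O.mem_V.mp hg
    simpa using this
  calc Nat.card O.V = Set.ncard (O.V : Set M) := rfl
    _ ≤ Set.ncard ((({1, O.a, O.b, O.a * O.b} : Finset M) : Set M)) :=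
      Set.ncard_le_ncard h (Finset.finite_toSet _)
    _ = ({1, O.a, O.b, O.a * O.b} : Finset M).card := Set.ncard_coe_finset _
    _ ≤ 4 := Finset.card_le_four

/-- A uniform bound for the order of the octahedral group. -/
lemma card_H_le [Finite M] : Nat.card O.H ≤ 1024 := by
  have h0 := Subgroup.card_mul_index (O.V.normalizerMonoidHom).ker
  rw [Subgroup.index_ker] at h0
  have h1 : Nat.card (O.V.normalizerMonoidHom).ker ≤ 4 := by
    refine le_trans ?_ O.card_V_le
    refine Nat.card_le_card_of_injective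
      (fun x : (O.V.normalizerMonoidHom).ker => (⟨(x : (Subgroup.normalizer (O.V : Set M))), ?_⟩ : O.V)) ?_
    · have h5 : ∀ y, y ∈ (O.V.normalizerMonoidHom).ker →
          y ∈ (Subgroup.centralizer (O.V : Set M)).subgroupOf (Subgroup.normalizer (O.V : Set M)) := by
        intro y hy
        rwa [Subgroup.normalizerMonoidHom_ker] at hy
      have := h5 _ x.2
      rw [Subgroup.mem_subgroupOf, Subgroup.mem_centralizer_iff] at this
      rw [O.mem_V_iff]
      exact ⟨(this _ O.a_mem_V).symm, (this _ O.b_mem_V).symm⟩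
    · intro x y hxy
      have := congrArg Subtype.val hxy
      exact Subtype.ext (Subtype.ext this)
  have h2 : Nat.card (O.V.normalizerMonoidHom).range ≤ 256 := by
    have h3 : Nat.card (O.V.normalizerMonoidHom).range ≤ Nat.card (O.V → O.V) := by
      refine Nat.card_le_card_of_injective
        (fun x : (O.V.normalizerMonoidHom).range => ((x : MulAut O.V) : O.V → O.V)) ?_
      intro x y hxy
      apply Subtype.ext
      exact MulEquiv.ext (congrFun hxy)
    refine h3.trans ?_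
    rw [Nat.card_fun]
    calc Nat.card O.V ^ Nat.card O.V ≤ 4 ^ Nat.card O.V := Nat.pow_le_pow_left O.card_V_le _
      _ ≤ 4 ^ 4 := Nat.pow_le_pow_right (by norm_num) O.card_V_le
      _ = 256 := by norm_num
  have h4 : Nat.card O.H = Nat.card (O.V.normalizerMonoidHom).ker *
    Nat.card (O.V.normalizerMonoidHom).range := h0.symm
  rw [h4]
  calc _ ≤ 4 * 256 := Nat.mul_le_mul h1 h2
    _ = 1024 := by norm_num

end Oct

end Pool.Agent.Helper38.Klein
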