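import Pool.Agent.Helper38.Moebius
import Pool.Agent.Helper38.Klein

set_option autoImplicit false

namespace Pool.Agent.Helper38.Moebius

open OnePoint Matrix Pool.Agent.Helper38.Klein

section field

variable {K : Type} [Field K] [DecidableEq K]

lemma mk_mul (a b c d : K) (h : a * d - b * c ≠ 0) (a' b' c' d' : K) (h' : a' * d' - b' * c' ≠ 0)
    (h'' : (a * a' + b * c') * (c * b' + d * d') - (a * b' + b * d') * (c * a' + d * c') ≠ 0) :
    mk a b c d h * mk a' b' c' d' h' =
      mk (a * a' + b * c') (a * b' + b * d') (c * a' + d * c') (c * b' + d * d') h'' := by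
  unfold mk
  rw [← map_mul]
  congr 1
  ext i j
  rw [mkGL_apply, GeneralLinearGroup.coe_mul]
  have h1 : ((GeneralLinearGroup.mkOfDetNeZero !![a, b; c, d] (by rwa [det_fin_two_of]) :
    GL (Fin 2) K) : Matrix (Fin 2) (Fin 2) K) = !![a, b; c, d] := rfl
  have h2 : ((GeneralLinearGroup.mkOfDetNeZero !![a', b'; c', d'] (by rwa [det_fin_two_of]) :
    GL (Fin 2) K) : Matrix (Fin 2) (Fin 2) K) = !![a', b'; c', d'] := rfl
  rw [h1, h2, Matrix.mul_fin_two]

lemma mk_smul (a b c d : K) (h : a * d - b * c ≠ 0) (l a' b' c' d' : K) 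
    (h' : a' * d' - b' * c' ≠ 0) (hl : l ≠ 0) (ha : a = l * a') (hb : b = l * b') (hc : c = l * c')
    (hd : d = l * d') :
    mk a b c d h = mk a' b' c' d' h' := by
  subst ha hb hc hd
  apply perm_ext
  · rw [mk_infty, mk_infty]
    by_cases hc : c' = 0
    · simp [hc]
    · simp [hc, hl, mul_div_mul_left]
  · intro x
    rw [mk_some, mk_some]
    have h1 : l * c' * x + l * d' = l * (c' * x + d') := by ring
    have h2 : l * a' * x + l * b' = l * (a' * x + b') := by ring
    rw [h1, h2]
    by_cases hc : c' * x + d' = 0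
    · simp [hc]
    · simp [hc, hl, mul_div_mul_left]

/-- The octahedral data in the Moebius group. -/
noncomputable def oct (i : K) (hi : i * i = -1) (h2 : (2 : K) ≠ 0) : Oct (Mob K) where
  a := ⟨sc (-1) (by simp), sc_mem _ _⟩
  b := ⟨iv K, iv_mem⟩
  d := ⟨sc i (by rintro rfl; simp at hi), sc_mem _ _⟩
  e := ⟨mk 1 1 (-1) 1 (by norm_num; exact h2), mk_mem _ _ _ _ _⟩
  ha := by
    intro h
    have h1 := congrArg (fun g : Mob K => (g : Equiv.Perm (OnePoint K)) ((1 : K) : OnePoint K)) h
    simp only [sc_some, Subgroup.coe_one, Equiv.Perm.one_apply, OnePoint.coe_eq_coe] at h1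
    apply h2
    linear_combination -h1
  haa := by
    apply Subtype.ext
    apply perm_ext
    · simp
    · intro x; simp
  hbb := by
    apply Subtype.ext
    exact iv_iv
  hab := by
    apply Subtype.ext
    exact sc_neg_one_mul_iv
  hcent := by
    -- first the case of elements fixing infinity
    have key : ∀ g : Mob K, g * ⟨sc (-1) (by simp), sc_mem _ _⟩ = ⟨sc (-1) (by simp), sc_mem _ _⟩ * g →
        g * ⟨iv K, iv_mem⟩ = ⟨iv K, iv_mem⟩ * g → (g : Equiv.Perm (OnePoint K)) ∞ = ∞ →
        g = 1 ∨ g = ⟨sc (-1) (by simp), sc_mem _ _⟩ := by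
      intro g hga hgb hg
      obtain ⟨α, β, hα, hαβ⟩ := exists_affine g.2 hg
      have e1 := congrArg (fun g : Mob K => (g : Equiv.Perm (OnePoint K)) ((0 : K) : OnePoint K)) hga
      simp only [Subgroup.coe_mul, Equiv.Perm.mul_apply, sc_some, hαβ, OnePoint.coe_eq_coe] at e1
      have hβ : β = 0 := by
        have : 2 * β = 0 := by linear_combination e1
        rcases mul_eq_zero.mp this with h | h
        · exact absurd h h2
        · exact h
      subst hβ
      have e2 := congrArg (fun g : Mob K => (g : Equiv.Perm (OnePoint K)) ((1 : K) : OnePoint K)) hgb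
      simp only [Subgroup.coe_mul, Equiv.Perm.mul_apply, hαβ, iv_some_ne (one_ne_zero : (1 : K) ≠ 0),
        inv_one, mul_one, add_zero, iv_some_ne hα, OnePoint.coe_eq_coe] at e2
      have e3 : α * α = 1 := by
        nth_rewrite 2 [e2]
        exact mul_inv_cancel₀ hα
      have e4 : α = 1 ∨ α = -1 := mul_self_eq_one_iff.mp e3
      rcases e4 with rfl | rfl
      · left
        apply Subtype.ext
        exact perm_ext (by simpa using hg) fun x => by simp [hαβ]
      · right
        apply Subtype.ext
        exact perm_ext (by simpa using hg) fun x => by simp [hαβ]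
    intro g hga hgb
    have hfix : (g : Equiv.Perm (OnePoint K)) ∞ = ∞ ∨
        (g : Equiv.Perm (OnePoint K)) ∞ = ((0 : K) : OnePoint K) := by
      have e1 := congrArg (fun g : Mob K => (g : Equiv.Perm (OnePoint K)) ∞) hga
      simp only [Subgroup.coe_mul, Equiv.Perm.mul_apply, sc_infty] at e1
      generalize (g : Equiv.Perm (OnePoint K)) ∞ = y at e1
      induction y using OnePoint.rec with
      | infty => exact Or.inl rfl
      | coe y =>
        right
        rw [sc_some, OnePoint.coe_eq_coe] at e1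
        have : 2 * y = 0 := by linear_combination e1
        rcases mul_eq_zero.mp this with h | h
        · exact absurd h h2
        · rw [h]
    rcases hfix with hf | hf
    · rcases key g hga hgb hf with h | h
      · exact Or.inl h
      · exact Or.inr (Or.inl h)
    · have hbb : (⟨iv K, iv_mem⟩ : Mob K) * ⟨iv K, iv_mem⟩ = 1 := Subtype.ext iv_iv
      have hab : (⟨sc (-1) (by simp), sc_mem _ _⟩ : Mob K) * ⟨iv K, iv_mem⟩ =
        ⟨iv K, iv_mem⟩ * ⟨sc (-1) (by simp), sc_mem _ _⟩ := Subtype.ext sc_neg_one_mul_iv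
      have h3 := key (⟨iv K, iv_mem⟩ * g)
        (by rw [mul_assoc, hga, ← mul_assoc, ← hab, mul_assoc])
        (by rw [mul_assoc, hgb])
        (by rw [Subgroup.coe_mul, Equiv.Perm.mul_apply, hf]; exact iv_zero)
      have h4 : ∀ x : Mob K, ⟨iv K, iv_mem⟩ * g = x → g = ⟨iv K, iv_mem⟩ * x := by
        rintro x rfl
        rw [← mul_assoc, hbb, one_mul]
      rcases h3 with h | h
      · right; right; left
        rw [h4 _ h, mul_one]
      · right; right; right
        rw [h4 _ h, hab]
  hd := by
    apply Subtype.ext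
    apply perm_ext
    · simp
    · intro x
      simp only [Subgroup.coe_mul, Equiv.Perm.mul_apply, sc_some, ← mul_assoc, hi]
  hdb := by
    have hi0 : i ≠ 0 := by rintro rfl; simp at hi
    rw [mul_inv_eq_iff_eq_mul]
    apply Subtype.ext
    simp only [Subgroup.coe_mul]
    apply perm_ext
    · simp
    · intro x
      rcases eq_or_ne x 0 with rfl | hx
      · simp
      · have hix : i * x ≠ 0 := mul_ne_zero hi0 hx
        simp only [Equiv.Perm.mul_apply, sc_some, iv_some_ne hx, iv_some_ne hix,
          OnePoint.coe_eq_coe]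
        field_simp
        linear_combination hi
  hea := by
    rw [mul_inv_eq_iff_eq_mul]
    apply Subtype.ext
    simp only [Subgroup.coe_mul, sc, iv]
    have h4 : (2 : K) * 2 ≠ 0 := mul_ne_zero h2 h2
    rw [mk_mul, mk_mul]
    · refine mk_smul _ _ _ _ _ 1 _ _ _ _ _ ?_ ?_ ?_ ?_ ?_ <;> norm_num
    · norm_num; exact h2
    · norm_num; exact h2
  heb := by
    rw [mul_inv_eq_iff_eq_mul]
    apply Subtype.ext
    simp only [Subgroup.coe_mul, sc, iv]
    rw [mk_mul, mk_mul]
    · refine mk_smul _ _ _ _ _ (-1) _ _ _ _ _ ?_ ?_ ?_ ?_ ?_ <;> norm_num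
    · norm_num; exact h2
    · norm_num; exact h2

end field

end Pool.Agent.Helper38.Moebius
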