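import Pool.Agent.Helper38.Glue
import Pool.Agent.Helper38.MobOct

set_option autoImplicit false

namespace Pool.Agent.Helper38.CLF

open Function Pool.Agent.Helper38.Moebius Pool.Agent.Helper38.Klein Pool.Agent.Helper38.Glue

/-- Infinitely many groups of bounded order contain infinitely many isomorphic ones. -/
lemma pigeon (A : ℕ → Type) [∀ i, Group (A i)] [∀ i, Finite (A i)] (N : ℕ)
    (h : ∀ i, Nat.card (A i) ≤ N) :
    ∃ (i0 : ℕ) (f : ℕ → ℕ), Injective f ∧ ∀ k, Nonempty (A i0 ≃* A (f k)) := by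
  classical
  have hR : ∀ i, ∃ y : (Σ n : Fin (N + 1), (Fin n → Fin n → Fin n)),
      ∃ e : A i ≃ Fin y.1, ∀ a b, e (a * b) = y.2 (e a) (e b) := by
    intro i
    let e := Finite.equivFin (A i)
    refine ⟨⟨⟨Nat.card (A i), Nat.lt_succ_of_le (h i)⟩, fun x y => e (e.symm x * e.symm y)⟩, e, ?_⟩
    intro a b
    simp
  choose c hc using hR
  obtain ⟨y, hy⟩ := Finite.exists_infinite_fiber c
  have hinf : (c ⁻¹' {y}).Infinite := Set.infinite_coe_iff.mp hy
  obtain ⟨i0, hi0⟩ := hinf.nonempty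
  refine ⟨i0, fun k => (Set.Infinite.natEmbedding _ hinf k : ℕ), ?_, ?_⟩
  · intro k l hkl
    exact (Set.Infinite.natEmbedding _ hinf).injective (Subtype.ext hkl)
  · have key : ∀ i, c i = y → ∃ e : A i ≃ Fin y.1, ∀ a b, e (a * b) = y.2 (e a) (e b) := by
      rintro i rfl
      exact hc i
    intro k
    obtain ⟨e, he⟩ := key i0 hi0
    obtain ⟨e', he'⟩ := key _ (Set.Infinite.natEmbedding _ hinf k).2
    refine ⟨{ (e.trans e'.symm) with map_mul' := ?_ }⟩
    intro a b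
    apply e'.injective
    simp [he, he']

lemma card_mob_dvd (q : ℕ) [Fact q.Prime] :
    Nat.card (Mob (ZMod q)) ∣ (q ^ 2 - 1) * (q ^ 2 - q) := by
  have h1 : Nat.card (Mob (ZMod q)) ∣ Nat.card (Matrix.GeneralLinearGroup (Fin 2) (ZMod q)) :=
    Subgroup.card_range_dvd _
  rw [Matrix.card_GL_field] at h1
  simpa [Fin.prod_univ_two, ZMod.card] using h1

/-- A sparse sequence of primes. -/
lemma exists_primes : ∃ P : ℕ → ℕ, (∀ i, (P i).Prime ∧ 5 ≤ P i ∧ P i % 4 = 1) ∧
    ∀ i j, i < j → P i + 1 < P j ∧ P j % P i = 2 := by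
  refine exists_seq_of_forall_finset_exists (fun x : ℕ => x.Prime ∧ 5 ≤ x ∧ x % 4 = 1)
    (fun x y : ℕ => x + 1 < y ∧ y % x = 2) ?_
  intro s hs
  set Q : ℕ := ∏ x ∈ s, x with hQ
  have hodd : Q % 2 = 1 := by
    rw [hQ, ← Nat.odd_iff]
    refine Finset.prod_induction _ Odd (fun a b ha hb => ha.mul hb) odd_one ?_
    intro x hx
    have := (hs x hx).2.2
    rw [Nat.odd_iff]; omega
  have hpos : 0 < Q := by omega
  obtain ⟨m, hm⟩ : ∃ m : ℤ, (Q : ℤ) = 2 * m + 1 := ⟨(Q / 2 : ℕ), by omega⟩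
  have hcop : IsCoprime (2 - (Q : ℤ) ^ 2) ((4 * Q : ℕ) : ℤ) := by
    push_cast
    apply IsCoprime.mul_right
    · refine ⟨1, m ^ 2 + m, ?_⟩
      rw [hm]; ring
    · refine ⟨-m, 1 - m * Q, ?_⟩
      rw [hm]; ring
  obtain ⟨y, hy, hyp, hyc⟩ := Nat.forall_exists_prime_gt_and_zmodEq (4 + Q + 1)
    (q := 4 * Q) (a := 2 - (Q : ℤ) ^ 2) (by omega) hcop
  have h4 : (y : ℤ) ≡ 2 - (Q : ℤ) ^ 2 [ZMOD 4] := hyc.of_dvd ⟨Q, by push_cast; ring⟩
  refine ⟨y, ⟨hyp, by omega, ?_⟩, ?_⟩
  · have h5 : 2 - (Q : ℤ) ^ 2 ≡ 1 [ZMOD 4] := by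
      rw [Int.modEq_iff_dvd]
      refine ⟨m ^ 2 + m, ?_⟩
      rw [hm]; ring
    have h6 := h4.trans h5
    rw [Int.ModEq] at h6
    omega
  · intro x hx
    have hxQ : x ∣ Q := Finset.dvd_prod_of_mem _ hx
    have hx5 := (hs x hx).2.1
    refine ⟨?_, ?_⟩
    · have := Nat.le_of_dvd hpos hxQ
      omega
    · have h5 : (y : ℤ) ≡ 2 - (Q : ℤ) ^ 2 [ZMOD x] :=
        hyc.of_dvd (by exact_mod_cast (hxQ.mul_left 4))
      have h6 : 2 - (Q : ℤ) ^ 2 ≡ 2 [ZMOD x] := by
        rw [Int.modEq_iff_dvd]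
        obtain ⟨k, hk⟩ := hxQ
        refine ⟨k * Q, ?_⟩
        have : (Q : ℤ) = x * k := by exact_mod_cast hk
        nth_rewrite 1 [sq]
        nth_rewrite 1 [this]
        ring
      have h7 := h5.trans h6
      rw [Int.ModEq] at h7
      have h8 : (2 : ℤ) % x = 2 := Int.emod_eq_of_lt (by norm_num) (by exact_mod_cast (by omega : 2 < x))
      rw [h8] at h7
      exact_mod_cast h7

/-- Orders of the Moebius groups along the sparse sequence. -/
lemma coprime_card {p q : ℕ} (hp : p.Prime) (hp5 : 5 ≤ p) [Fact q.Prime]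
    (h : q + 1 < p ∨ q % p = 2) : (Nat.card (Mob (ZMod q))).Coprime p := by
  refine Nat.Coprime.coprime_dvd_left (card_mob_dvd q) ?_
  rw [Nat.coprime_comm, Nat.Prime.coprime_iff_not_dvd hp]
  have hq2 : 2 ≤ q := (Fact.out : q.Prime).two_le
  have e1 : q ^ 2 - 1 = (q - 1) * (q + 1) := by
    obtain ⟨k, rfl⟩ : ∃ k, q = k + 1 := ⟨q - 1, by omega⟩
    simp only [Nat.add_sub_cancel]
    have : (k + 1) ^ 2 = k * (k + 1 + 1) + 1 := by ring
    omega
  have e2 : q ^ 2 - q = q * (q - 1) := by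
    obtain ⟨k, rfl⟩ : ∃ k, q = k + 1 := ⟨q - 1, by omega⟩
    simp only [Nat.add_sub_cancel]
    have : (k + 1) ^ 2 = (k + 1) * k + (k + 1) := by ring
    omega
  rw [e1, e2, Nat.Prime.dvd_mul hp, Nat.Prime.dvd_mul hp, Nat.Prime.dvd_mul hp]
  have key : ∀ n, 0 < n → n < p → ¬ p ∣ n := fun n h0 hn hd =>
    absurd (Nat.le_of_dvd h0 hd) (by omega)
  rcases h with h | h
  · have a1 := key (q - 1) (by omega) (by omega)
    have a2 := key (q + 1) (by omega) (by omega)
    have a3 := key q (by omega) (by omega)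
    tauto
  · have hk : q = p * (q / p) + 2 := by
      have := Nat.div_add_mod q p
      omega
    generalize q / p = k at hk
    have b1 : ∀ n, 0 < n → n < p → ¬ p ∣ p * k + n := fun n h0 hn hd =>
      key n h0 hn ((Nat.dvd_add_right (dvd_mul_right p k)).mp hd)
    have a1 : ¬ p ∣ q - 1 := by
      have e3 : q - 1 = p * k + 1 := by omega
      rw [e3]; exact b1 1 (by omega) (by omega)
    have a2 : ¬ p ∣ q + 1 := by
      have e3 : q + 1 = p * k + 3 := by omega
      rw [e3]; exact b1 3 (by omega) (by omega)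
    have a3 : ¬ p ∣ q := by
      rw [hk]; exact b1 2 (by omega) (by omega)
    tauto

/-- There is a countably infinite complete locally finite group. -/
theorem main : ∃ (G : Type) (_ : Group G), Countable G ∧ Infinite G ∧
      (∀ s : Finset G, ((Subgroup.closure (s : Set G) : Subgroup G) : Set G).Finite) ∧
      Subgroup.center G = ⊥ ∧
      ∀ φ : MulAut G, ∃ g : G, φ = MulAut.conj g := by
  obtain ⟨P, hP, hPP⟩ := exists_primes
  have : ∀ j, Fact (P j).Prime := fun j => ⟨(hP j).1⟩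
  have hne2 : ∀ j, P j ≠ 2 := fun j => by have := (hP j).2.1; omega
  have htwo : ∀ j, (2 : ZMod (P j)) ≠ 0 := fun j => two_ne_zero' (hne2 j)
  have hi : ∀ j, ∃ i : ZMod (P j), i * i = -1 := by
    intro j
    have h1 : IsSquare (-1 : ZMod (P j)) := by
      rw [ZMod.exists_sq_eq_neg_one_iff]
      have := (hP j).2.2
      omega
    obtain ⟨i, hi⟩ := h1
    exact ⟨i, hi.symm⟩
  choose i hi using hi
  let O : ∀ j, Oct (Mob (ZMod (P j))) := fun j => oct (i j) (hi j) (htwo j)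
  have hfin : ∀ j, Finite (Mob (ZMod (P j))) := fun j => inferInstance
  obtain ⟨i0, f, hf, hiso⟩ := pigeon (fun j => (O j).H) 1024 (fun j => (O j).card_H_le)
  have e : ∀ k, ((O i0).H ≃* (O (f k)).H) := fun k => Classical.choice (hiso k)
  refine glue (fun k => Mob (ZMod (P (f k)))) (F := (O i0).H)
    (fun k => ((O (f k)).H.subtype).comp (e k).toMonoidHom) (fun k => P (f k)) ?_ ?_ ?_ ?_ ?_ ?_ ?_
  · intro k x y hxy
    apply (e k).injective
    exact Subtype.ext hxy
  · intro k l hkl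
    have hkl' : f k ≠ f l := fun h => hkl (hf h)
    refine coprime_card (hP _).1 (hP _).2.1 ?_
    rcases Nat.lt_or_gt_of_ne hkl' with h | h
    · exact Or.inr (hPP _ _ h).2
    · exact Or.inl (hPP _ _ h).1
  · intro k s hs
    apply Subtype.ext
    apply eq_one_of_commute (p := P (f k))
    intro u hu hup
    have := hs ⟨u, hu⟩ (Subtype.ext (by simpa using hup))
    exact congrArg Subtype.val this
  · intro k
    exact ⟨⟨_, _, (O (f k)).ha⟩⟩
  · intro k φ
    exact complete (hne2 _) φ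
  · intro k t ht
    have h1 : t ∈ (O (f k)).H := by
      apply (O (f k)).self_normalizing
      intro g hg
      obtain ⟨f', hf'⟩ := ht ((e k).symm ⟨g, hg⟩)
      have h2 : (((O (f k)).H.subtype).comp (e k).toMonoidHom) ((e k).symm ⟨g, hg⟩) = g := by
        simp
      rw [h2] at hf'
      rw [hf']
      exact ((e k) f').2
    refine ⟨(e k).symm ⟨t, h1⟩, ?_⟩
    simp
  · intro z hz
    apply Subtype.ext
    apply (O i0).center_trivial
    intro g hg
    exact congrArg Subtype.val (hz ⟨g, hg⟩)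

end Pool.Agent.Helper38.CLF
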