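import Mathlib

set_option autoImplicit false

namespace Pool.Agent.Helper38.FNoeth

/-- A right congruence on a semigroup `S`: an equivalence relation `r` such that `r a b` implies
`r (a * s) (b * s)` for all `s`. -/
def IsRightCongruence {S : Type} [Semigroup S] (r : Setoid S) : Prop :=
  ∀ a b s : S, r a b → r (a * s) (b * s)

/-- The right congruence `r` is finitely generated: it is the smallest right congruence
containing some finite set `X` of pairs. -/
def IsFinGen {S : Type} [Semigroup S] (r : Setoid S) : Prop :=
  ∃ X : Set (S × S), X.Finite ∧ (∀ p ∈ X, r p.1 p.2) ∧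
    ∀ r' : Setoid S, IsRightCongruence r' → (∀ p ∈ X, r' p.1 p.2) → ∀ a b, r a b → r' a b

/-- `S` is f-noetherian: every right congruence with finitely many classes is finitely
generated. -/
def FNoetherian (S : Type) [Semigroup S] : Prop :=
  ∀ r : Setoid S, IsRightCongruence r → Finite (Quotient r) → IsFinGen r

/-- `S` is completely regular: every element lies in a subgroup of `S`, that is, in a
subsemigroup `H` which has an identity element and in which every element is invertible. -/
def CompletelyRegular (S : Type) [Semigroup S] : Prop :=
  ∀ a : S, ∃ H : Subsemigroup S, a ∈ H ∧ ∃ e ∈ H, (∀ x ∈ H, e * x = x ∧ x * e = x) ∧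
    ∀ x ∈ H, ∃ y ∈ H, x * y = e ∧ y * x = e

/-- `S` is finitely generated as a semigroup. -/
def FinitelyGenerated (S : Type) [Semigroup S] : Prop :=
  ∃ Z : Set S, Z.Finite ∧ Subsemigroup.closure Z = ⊤

end Pool.Agent.Helper38.FNoeth
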