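import Pool.Agent.Helper38.FNoethDefs

set_option autoImplicit false

namespace Pool.Agent.Helper38.FNoeth

/-- The underlying set of the example: the integers (`g n`) together with
`ℤ × (ℤ →₀ ℤ) × ℤ` (`k a x b`). -/
inductive T : Type
  | g (n : ℤ) : T
  | k (a : ℤ) (x : ℤ →₀ ℤ) (b : ℤ) : T

namespace T

/-- The multiplication of the example. -/
noncomputable def mul : T → T → T
  | g m, g n => g (m + n)
  | g m, k a x b => k (m + a) x b
  | k a x b, g n => k a x (b + n)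
  | k a x b, k c y d => k a (x + y + Finsupp.single (b + c) 1) d

noncomputable instance : Mul T := ⟨mul⟩

lemma g_mul_g (m n : ℤ) : g m * g n = g (m + n) := rfl
lemma g_mul_k (m a : ℤ) (x : ℤ →₀ ℤ) (b : ℤ) : g m * k a x b = k (m + a) x b := rfl
lemma k_mul_g (a : ℤ) (x : ℤ →₀ ℤ) (b n : ℤ) : k a x b * g n = k a x (b + n) := rfl
lemma k_mul_k (a : ℤ) (x : ℤ →₀ ℤ) (b c : ℤ) (y : ℤ →₀ ℤ) (d : ℤ) :
    k a x b * k c y d = k a (x + y + Finsupp.single (b + c) 1) d := rfl

noncomputable instance : Semigroup T where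
  mul_assoc := by
    rintro (m | ⟨a, x, b⟩) (n | ⟨c, y, d⟩) (l | ⟨e, z, f⟩) <;>
      simp only [g_mul_g, g_mul_k, k_mul_g, k_mul_k, add_assoc]
    congr 1
    abel

/-- The coefficient of the middle component. -/
noncomputable def coeff (h : ℤ) : T → ℤ
  | g _ => 0
  | k _ x _ => x h

lemma coeff_mul (h : ℤ) (s t : T) (hs : 0 ≤ coeff h s) (ht : 0 ≤ coeff h t) :
    0 ≤ coeff h (s * t) := by
  cases s with
  | g m =>
    cases t with
    | g n => exact hs
    | k c y d => exact ht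
  | k a x b =>
    cases t with
    | g n => exact hs
    | k c y d =>
      have h1 : 0 ≤ (Finsupp.single (b + c) (1 : ℤ)) h := by
        rw [Finsupp.single_apply]; split_ifs <;> norm_num
      have h2 : coeff h (k a x b * k c y d) = x h + y h + (Finsupp.single (b + c) (1 : ℤ)) h := rfl
      have h3 : 0 ≤ x h := hs
      have h4 : 0 ≤ y h := ht
      omega

/-- The elements whose middle component is nonnegative at `h`. -/
noncomputable def nonneg (h : ℤ) : Subsemigroup T where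
  carrier := {s | 0 ≤ coeff h s}
  mul_mem' := fun hs ht => coeff_mul h _ _ hs ht

theorem not_finitelyGenerated : ¬ FinitelyGenerated T := by
  rintro ⟨Z, hZ, hcl⟩
  classical
  -- an index outside all supports
  let supp : T → Finset ℤ := fun s => match s with
    | g _ => ∅
    | k _ x _ => x.support
  obtain ⟨h, hh⟩ := Infinite.exists_notMem_finset (hZ.toFinset.biUnion supp)
  have h1 : Z ⊆ nonneg h := by
    intro s hs
    have h2 : h ∉ supp s := by
      intro h3
      exact hh (Finset.mem_biUnion.mpr ⟨s, by simpa using hs, h3⟩)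
    cases s with
    | g n => exact le_refl (0 : ℤ)
    | k a x b =>
      have h4 : x h = 0 := by
        simpa [supp] using h2
      exact (le_of_eq h4.symm : (0 : ℤ) ≤ x h)
  have h2 : Subsemigroup.closure Z ≤ nonneg h := Subsemigroup.closure_le.mpr h1
  rw [hcl] at h2
  have h3 : k 0 (Finsupp.single h (-1)) 0 ∈ nonneg h := h2 (Subsemigroup.mem_top _)
  have h4 : (0 : ℤ) ≤ (Finsupp.single h (-1 : ℤ)) h := h3
  simp at h4

theorem completelyRegular : CompletelyRegular T := by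
  rintro (n | ⟨a, x, b⟩)
  · refine ⟨⟨Set.range g, ?_⟩, ⟨n, rfl⟩, g 0, ⟨0, rfl⟩, ?_, ?_⟩
    · rintro _ _ ⟨m, rfl⟩ ⟨l, rfl⟩
      exact ⟨m + l, rfl⟩
    · rintro _ ⟨m, rfl⟩
      simp [g_mul_g]
    · rintro _ ⟨m, rfl⟩
      exact ⟨g (-m), ⟨-m, rfl⟩, by simp [g_mul_g], by simp [g_mul_g]⟩
  · refine ⟨⟨Set.range fun y => k a y b, ?_⟩, ⟨x, rfl⟩, k a (-Finsupp.single (b + a) 1) b,
      ⟨_, rfl⟩, ?_, ?_⟩
    · rintro _ _ ⟨y, rfl⟩ ⟨z, rfl⟩
      exact ⟨y + z + Finsupp.single (b + a) 1, rfl⟩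
    · rintro _ ⟨y, rfl⟩
      simp [k_mul_k]
    · rintro _ ⟨y, rfl⟩
      refine ⟨_, ⟨-y - Finsupp.single (b + a) 1 - Finsupp.single (b + a) 1, rfl⟩, ?_, ?_⟩
      · simp only [k_mul_k]
        congr 1
        abel
      · simp only [k_mul_k]
        congr 1
        abel

/-! ### The f-noetherian property -/

section fnoeth

variable (r : Setoid T)

open Classical in
/-- A representative of the middle components of a class. -/
noncomputable def rep (a : ℤ) (q : Quotient r) : ℤ →₀ ℤ :=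
  if h : ∃ x, (⟦k a x 0⟧ : Quotient r) = q then h.choose else 0

lemma rep_spec (a : ℤ) (x : ℤ →₀ ℤ) : r (k a (rep r a ⟦k a x 0⟧) 0) (k a x 0) := by
  have h : ∃ y, (⟦k a y 0⟧ : Quotient r) = ⟦k a x 0⟧ := ⟨x, rfl⟩
  have h1 : rep r a ⟦k a x 0⟧ = h.choose := dif_pos h
  rw [h1]
  exact Quotient.exact h.choose_spec

lemma rep_congr {a : ℤ} {x y : ℤ →₀ ℤ} (h : r (k a x 0) (k a y 0)) :
    rep r a ⟦k a x 0⟧ = rep r a ⟦k a y 0⟧ := by
  rw [Quotient.sound h]

/-- The chosen representatives. -/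
def IsRep (a : ℤ) (x : ℤ →₀ ℤ) : Prop := rep r a ⟦k a x 0⟧ = x

lemma isRep_rep (a : ℤ) (x : ℤ →₀ ℤ) : IsRep r a (rep r a ⟦k a x 0⟧) :=
  rep_congr r (rep_spec r a x)

/-- The finite set of representatives. -/
def E (N : ℕ) : Set T :=
  {s | (∃ m : ℤ, 0 ≤ m ∧ m ≤ N ∧ s = g m) ∨
    (∃ a : ℤ, 0 ≤ a ∧ a ≤ N ∧ ∃ x, IsRep r a x ∧ ∃ b : ℤ, 0 ≤ b ∧ b ≤ N ∧ s = k a x b) ∨
    (∃ a : ℤ, 0 ≤ a ∧ a ≤ N ∧ ∃ x, IsRep r a x ∧ ∃ j : ℤ, 0 ≤ j ∧ j ≤ N ∧
      s = k a (x + Finsupp.single j 1) 0)}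

lemma E_finite (N : ℕ) [Finite (Quotient r)] : (E r N).Finite := by
  have hI : (Set.Icc (0 : ℤ) N).Finite := Set.finite_Icc _ _
  have hR : ∀ a, {x | IsRep r a x}.Finite := by
    intro a
    refine Set.Finite.of_injOn (f := fun x => (⟦k a x 0⟧ : Quotient r)) (t := Set.univ)
      (fun _ _ => Set.mem_univ _) ?_ Set.finite_univ
    intro x hx y hy hxy
    have hx' : rep r a ⟦k a x 0⟧ = x := hx
    have hy' : rep r a ⟦k a y 0⟧ = y := hy
    have hxy' : (⟦k a x 0⟧ : Quotient r) = ⟦k a y 0⟧ := hxy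
    rw [← hx', ← hy', hxy']
  have h1 : {s : T | ∃ m : ℤ, 0 ≤ m ∧ m ≤ N ∧ s = g m}.Finite := by
    refine (hI.image g).subset ?_
    rintro s ⟨m, h0, h1, rfl⟩
    exact ⟨m, ⟨h0, h1⟩, rfl⟩
  have h2 : {s : T | ∃ a : ℤ, 0 ≤ a ∧ a ≤ N ∧ ∃ x, IsRep r a x ∧ ∃ b : ℤ, 0 ≤ b ∧ b ≤ N ∧
      s = k a x b}.Finite := by
    refine (hI.biUnion (t := fun a => ⋃ b ∈ Set.Icc (0 : ℤ) N,
      (fun x => k a x b) '' {x | IsRep r a x}) ?_).subset ?_
    · intro a _
      exact hI.biUnion fun b _ => (hR a).image _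
    · rintro s ⟨a, h0, h1, x, hx, b, h2, h3, rfl⟩
      simp only [Set.mem_iUnion]
      exact ⟨a, ⟨h0, h1⟩, b, ⟨h2, h3⟩, x, hx, rfl⟩
  have h3 : {s : T | ∃ a : ℤ, 0 ≤ a ∧ a ≤ N ∧ ∃ x, IsRep r a x ∧ ∃ j : ℤ, 0 ≤ j ∧ j ≤ N ∧
      s = k a (x + Finsupp.single j 1) 0}.Finite := by
    refine (hI.biUnion (t := fun a => ⋃ j ∈ Set.Icc (0 : ℤ) N,
      (fun x => k a (x + Finsupp.single j 1) 0) '' {x | IsRep r a x}) ?_).subset ?_
    · intro a _
      exact hI.biUnion fun b _ => (hR a).image _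
    · rintro s ⟨a, h0, h1, x, hx, b, h2, h3, rfl⟩
      simp only [Set.mem_iUnion]
      exact ⟨a, ⟨h0, h1⟩, b, ⟨h2, h3⟩, x, hx, rfl⟩
  exact h1.union (h2.union h3)

/-- Right translation by a power of `g 1` is trivial on classes. -/
lemma exists_period (hr : IsRightCongruence r) [Finite (Quotient r)] :
    ∃ N : ℕ, 0 < N ∧ ∀ s, r s (s * g N) := by
  let f : ℤ → Quotient r → Quotient r := fun n =>
    Quotient.map (fun s => s * g n) (fun a b hab => hr a b (g n) hab)
  have hf : ∀ n s, f n ⟦s⟧ = ⟦s * g n⟧ := fun n s => rfl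
  have hg0 : ∀ s : T, s * g 0 = s := by
    rintro (m | ⟨a, x, b⟩)
    · simp [g_mul_g]
    · simp [k_mul_g]
  have hgg : ∀ (s : T) (m n : ℤ), s * g m * g n = s * g (m + n) := by
    intro s m n
    rw [mul_assoc, g_mul_g]
  let σ : Equiv.Perm (Quotient r) :=
    { toFun := f 1
      invFun := f (-1)
      left_inv := by
        intro q
        induction q using Quotient.inductionOn with
        | h s => rw [hf, hf, hgg]; simp [hg0]
      right_inv := by
        intro q
        induction q using Quotient.inductionOn with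
        | h s => rw [hf, hf, hgg]; simp [hg0] }
  have hσ : ∀ (n : ℕ) (s : T), (σ ^ n) ⟦s⟧ = ⟦s * g n⟧ := by
    intro n
    induction n with
    | zero => intro s; simp [hg0]
    | succ n ih =>
      intro s
      rw [pow_succ, Equiv.Perm.mul_apply]
      have h1 : σ ⟦s⟧ = ⟦s * g 1⟧ := rfl
      rw [h1, ih, hgg]
      congr 3
      push_cast
      ring
  obtain ⟨N, hN, hN'⟩ := (isOfFinOrder_of_finite σ).exists_pow_eq_one
  refine ⟨N, hN, fun s => ?_⟩
  apply Quotient.exact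
  rw [← hσ, hN']
  rfl

variable {r} {ρ : Setoid T} {N : ℕ}

section claims

variable (hρ : IsRightCongruence ρ) (hle : ∀ s t, ρ s t → r s t) (hN : 0 < N)
  (hper : ∀ s, r s (s * g N)) (hX : ∀ s ∈ E r N, ∀ t ∈ E r N, r s t → ρ s t)

include hρ hper hX

/-- Left translation by multiples of the period. -/
lemma claimA (t : T) : ρ (g N * t) t := by
  have h1 : r (g 0) (g N) := by
    have := hper (g 0)
    rwa [g_mul_g, zero_add] at this
  have h2 : ρ (g 0) (g N) := hX _ (Or.inl ⟨0, le_refl _, by positivity, rfl⟩) _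
    (Or.inl ⟨N, by positivity, le_refl _, rfl⟩) h1
  have h3 := hρ _ _ t h2
  have h4 : g 0 * t = t := by
    cases t with
    | g n => simp [g_mul_g]
    | k a x b => simp [g_mul_k]
  rw [h4] at h3
  exact ρ.symm h3

lemma claimA' (t : T) (m : ℤ) : ρ (g (m * N) * t) t := by
  have hg0 : ∀ t : T, g 0 * t = t := by
    intro t
    cases t with
    | g n => simp [g_mul_g]
    | k a x b => simp [g_mul_k]
  have hgg : ∀ (a b : ℤ) (t : T), g (a + b) * t = g a * (g b * t) := by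
    intro a b t
    rw [← mul_assoc, g_mul_g]
  induction m using Int.induction_on with
  | zero => simp [hg0]
  | succ n ih =>
    have h1 : ((n : ℤ) + 1) * N = N + n * N := by ring
    rw [h1, hgg]
    exact ρ.trans (claimA hρ hper hX _) ih
  | pred n ih =>
    have h1 : -(n : ℤ) * N = N + (-(n : ℤ) - 1) * N := by ring
    rw [h1, hgg] at ih
    exact ρ.trans (ρ.symm (claimA hρ hper hX _)) ih

lemma claimB {a : ℤ} (ha0 : 0 ≤ a) (haN : a ≤ N) {x : ℤ →₀ ℤ} (hx : IsRep r a x) (m : ℤ) :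
    ρ (k a x 0) (k a x (m * N)) := by
  have h0 : ρ (k a x 0) (k a x N) := by
    refine hX _ (Or.inr (Or.inl ⟨a, ha0, haN, x, hx, 0, le_refl _, by positivity, rfl⟩)) _
      (Or.inr (Or.inl ⟨a, ha0, haN, x, hx, N, by positivity, le_refl _, rfl⟩)) ?_
    have := hper (k a x 0)
    rwa [k_mul_g, zero_add] at this
  have h1 : ∀ n : ℤ, ρ (k a x n) (k a x (N + n)) := by
    intro n
    have := hρ _ _ (g n) h0
    rwa [k_mul_g, k_mul_g, zero_add] at this
  induction m using Int.induction_on with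
  | zero => simp
  | succ n ih =>
    have h2 : ((n : ℤ) + 1) * N = N + n * N := by ring
    rw [h2]
    exact ρ.trans ih (h1 _)
  | pred n ih =>
    have h2 : -(n : ℤ) * N = N + (-(n : ℤ) - 1) * N := by ring
    rw [h2] at ih
    exact ρ.trans ih (ρ.symm (h1 _))

lemma claimC {a : ℤ} (ha0 : 0 ≤ a) (haN : a ≤ N) {x : ℤ →₀ ℤ} (hx : IsRep r a x) (m j : ℤ) :
    ρ (k a (x + Finsupp.single j 1) 0) (k a (x + Finsupp.single (m * N + j) 1) 0) := by
  have := hρ _ _ (k j 0 0) (claimB hρ hper hX ha0 haN hx m)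
  rwa [k_mul_k, k_mul_k, zero_add, add_zero] at this

omit hρ hper hX in
/-- Adding a vector to the middle component is a right translation. -/
lemma add_mid {τ : Setoid T} (hτ : IsRightCongruence τ) {a c : ℤ} {x y : ℤ →₀ ℤ}
    (h : τ (k a x 0) (k c y 0)) (z : ℤ →₀ ℤ) : τ (k a (x + z) 0) (k c (y + z) 0) := by
  have := hτ _ _ (k 0 (z - Finsupp.single 0 1) 0) h
  rw [k_mul_k, k_mul_k] at this
  have e : ∀ x : ℤ →₀ ℤ, x + (z - Finsupp.single 0 1) + Finsupp.single (0 + 0) 1 = x + z := by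
    intro x
    rw [add_zero]
    abel
  rwa [e, e] at this

include hle hN in
/-- Every element `k a x 0` with `0 ≤ a ≤ N` is `ρ`-related to its representative. -/
lemma claimD {a : ℤ} (ha0 : 0 ≤ a) (haN : a ≤ N) (hr : IsRightCongruence r) (z : ℤ →₀ ℤ) :
    ∀ x, IsRep r a x → ρ (k a (x + z) 0) (k a (rep r a ⟦k a (x + z) 0⟧) 0) := by
  have hNpos : (0 : ℤ) < N := by exact_mod_cast hN
  -- the additive subgroup of good shifts
  let P : AddSubgroup (ℤ →₀ ℤ) :=
    { carrier := {z | ∀ x, IsRep r a x → ρ (k a (x + z) 0) (k a (rep r a ⟦k a (x + z) 0⟧) 0)}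
      zero_mem' := by
        intro x hx
        have hx' : rep r a ⟦k a x 0⟧ = x := hx
        rw [add_zero, hx']
      add_mem' := by
        intro z z' hz hz' x hx
        have h1 := hz x hx
        have h2 := add_mid hρ h1 z'
        have h3 := hz' _ (isRep_rep r a (x + z))
        have h4 := ρ.trans h2 h3
        have h5 : rep r a ⟦k a (rep r a ⟦k a (x + z) 0⟧ + z') 0⟧ = rep r a ⟦k a (x + (z + z')) 0⟧ := by
          apply rep_congr
          rw [← add_assoc]
          exact add_mid hr (rep_spec r a (x + z)) z'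
        rw [h5, add_assoc] at h4
        exact h4
      neg_mem' := by
        intro z hz x hx
        have h1 := hz _ (isRep_rep r a (x + -z))
        have h2 : rep r a ⟦k a (rep r a ⟦k a (x + -z) 0⟧ + z) 0⟧ = x := by
          have h3 : r (k a (rep r a ⟦k a (x + -z) 0⟧ + z) 0) (k a x 0) := by
            have := add_mid hr (rep_spec r a (x + -z)) z
            rwa [neg_add_cancel_right] at this
          rw [rep_congr r h3]
          exact hx
        rw [h2] at h1
        have h4 := add_mid hρ h1 (-z)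
        rw [add_neg_cancel_right] at h4
        exact ρ.symm h4 }
  have hsingle : ∀ j : ℤ, Finsupp.single j (1 : ℤ) ∈ P := by
    intro j x hx
    have hj := Int.emod_add_mul_ediv j N
    have h1 := claimC hρ hper hX ha0 haN hx (-(j / N)) j
    have h2 : -(j / N) * N + j = j % N := by linarith
    rw [h2] at h1
    have h3 : 0 ≤ j % N := Int.emod_nonneg _ (by omega)
    have h4 : j % N < N := Int.emod_lt_of_pos _ hNpos
    have h5 : r (k a (x + Finsupp.single (j % N) 1) 0)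
        (k a (rep r a ⟦k a (x + Finsupp.single j 1) 0⟧) 0) := by
      refine r.trans (r.symm (hle _ _ h1)) (r.symm (rep_spec r a _))
    have h6 := hX _ (Or.inr (Or.inr ⟨a, ha0, haN, x, hx, j % N, h3, h4.le, rfl⟩)) _
      (Or.inr (Or.inl ⟨a, ha0, haN, _, isRep_rep r a (x + Finsupp.single j 1), 0, le_refl _,
        hNpos.le, rfl⟩)) h5
    exact ρ.trans h1 h6
  have htop : z ∈ P := by
    induction z using Finsupp.induction_linear with
    | zero => exact zero_mem _
    | add f f' hf hf' => exact add_mem hf hf'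
    | single j b =>
      have : Finsupp.single j b = b • Finsupp.single j (1 : ℤ) := by simp
      rw [this]
      exact zsmul_mem (hsingle j) b
  exact htop

include hle hN in
lemma claimD' {a : ℤ} (ha0 : 0 ≤ a) (haN : a ≤ N) (hr : IsRightCongruence r) (x : ℤ →₀ ℤ) :
    ρ (k a x 0) (k a (rep r a ⟦k a x 0⟧) 0) := by
  have h := claimD hρ hle hN hper hX ha0 haN hr (x - rep r a ⟦k a 0 0⟧) _ (isRep_rep r a 0)
  rwa [add_sub_cancel] at h

include hle hN in
lemma claimE (hr : IsRightCongruence r) (s : T) : ∃ w ∈ E r N, ρ s w := by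
  have hNpos : (0 : ℤ) < N := by exact_mod_cast hN
  have hmod : ∀ m : ℤ, 0 ≤ m % N ∧ m % N ≤ N ∧ m = (m / N) * N + m % N := by
    intro m
    have h3 : 0 ≤ m % N := Int.emod_nonneg _ (by omega)
    have h4 : m % N < N := Int.emod_lt_of_pos _ hNpos
    refine ⟨h3, h4.le, ?_⟩
    have := Int.emod_add_mul_ediv m N
    linarith
  cases s with
  | g m =>
    obtain ⟨h1, h2, h3⟩ := hmod m
    refine ⟨g (m % N), Or.inl ⟨_, h1, h2, rfl⟩, ?_⟩
    have := claimA' hρ hper hX (g (m % N)) (m / N)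
    rwa [g_mul_g, ← h3] at this
  | k a x b =>
    obtain ⟨h1, h2, h3⟩ := hmod a
    obtain ⟨h4, h5, h6⟩ := hmod b
    refine ⟨k (a % N) (rep r (a % N) ⟦k (a % N) x 0⟧) (b % N),
      Or.inr (Or.inl ⟨_, h1, h2, _, isRep_rep r _ _, _, h4, h5, rfl⟩), ?_⟩
    have e1 := claimA' hρ hper hX (k (a % N) x b) (a / N)
    rw [g_mul_k, ← h3] at e1
    have e2 := hρ _ _ (g b) (claimD' hρ hle hN hper hX h1 h2 hr x)
    rw [k_mul_g, k_mul_g, zero_add] at e2
    have e3 := hρ _ _ (g (b % N)) (claimB hρ hper hX h1 h2 (isRep_rep r (a % N) x) (b / N))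
    rw [k_mul_g, k_mul_g, zero_add, ← h6] at e3
    exact ρ.trans e1 (ρ.trans e2 (ρ.symm e3))

end claims

end fnoeth

theorem fNoetherian : FNoetherian T := by
  intro r hr hfin
  obtain ⟨N, hN, hper⟩ := exists_period r hr
  refine ⟨{p | p.1 ∈ E r N ∧ p.2 ∈ E r N ∧ r p.1 p.2}, ?_, ?_, ?_⟩
  · refine ((E_finite r N).prod (E_finite r N)).subset ?_
    rintro ⟨s, t⟩ ⟨h1, h2, _⟩
    exact ⟨h1, h2⟩
  · rintro ⟨s, t⟩ ⟨_, _, h⟩
    exact h
  · intro r' hr' hX' s t hst
    -- the intersection of `r` and `r'`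
    let ρ : Setoid T := r ⊓ r'
    have hρ : IsRightCongruence ρ := fun a b s h => ⟨hr a b s h.1, hr' a b s h.2⟩
    have hle : ∀ s t, ρ s t → r s t := fun s t h => h.1
    have hX : ∀ s ∈ E r N, ∀ t ∈ E r N, r s t → ρ s t := fun s hs t ht h =>
      ⟨h, hX' (s, t) ⟨hs, ht, h⟩⟩
    obtain ⟨w, hw, hsw⟩ := claimE hρ hle hN hper hX hr s
    obtain ⟨w', hw', htw'⟩ := claimE hρ hle hN hper hX hr t
    have h1 : r w w' := r.trans (r.symm (hle _ _ hsw)) (r.trans hst (hle _ _ htw'))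
    have h2 := hX w hw w' hw' h1
    exact (ρ.trans hsw (ρ.trans h2 (ρ.symm htw'))).2

end T

end Pool.Agent.Helper38.FNoeth
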