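import Mathlib

set_option autoImplicit false

namespace Pool.Agent.Helper38.Glue

open Function

/-- The subgroup of a product of groups consisting of the families which from index `n` on are
given by the images of one element of `F`. -/
def level (S : ℕ → Type) [∀ i, Group (S i)] {F : Type} [Group F] (ι : ∀ i, F →* S i) (n : ℕ) :
    Subgroup (∀ i, S i) where
  carrier := {g | ∃ f : F, ∀ i, n ≤ i → g i = ι i f}
  one_mem' := ⟨1, fun i _ => by simp⟩
  mul_mem' := by
    rintro a b ⟨f, hf⟩ ⟨f', hf'⟩
    exact ⟨f * f', fun i hi => by simp [hf i hi, hf' i hi]⟩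
  inv_mem' := by
    rintro a ⟨f, hf⟩
    exact ⟨f⁻¹, fun i hi => by simp [hf i hi]⟩

/-- The families in a product of groups which are eventually given by one element of `F`. -/
def glued (S : ℕ → Type) [∀ i, Group (S i)] {F : Type} [Group F] (ι : ∀ i, F →* S i) :
    Subgroup (∀ i, S i) where
  carrier := {g | ∃ n, g ∈ level S ι n}
  one_mem' := ⟨0, one_mem _⟩
  mul_mem' := by
    rintro a b ⟨n, f, hf⟩ ⟨m, f', hf'⟩
    exact ⟨max n m, f * f', fun i hi => by
      simp [hf i (le_trans (le_max_left _ _) hi), hf' i (le_trans (le_max_right _ _) hi)]⟩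
  inv_mem' := by
    rintro a ⟨n, hn⟩
    exact ⟨n, inv_mem hn⟩

section

variable {S : ℕ → Type} [∀ i, Group (S i)] {F : Type} [Group F] {ι : ∀ i, F →* S i}

lemma mem_glued {g : ∀ i, S i} :
    g ∈ glued S ι ↔ ∃ n, ∃ f : F, ∀ i, n ≤ i → g i = ι i f := Iff.rfl

lemma level_mono {n m : ℕ} (h : n ≤ m) : level S ι n ≤ level S ι m := by
  rintro g ⟨f, hf⟩
  exact ⟨f, fun i hi => hf i (h.trans hi)⟩

lemma level_le (n : ℕ) : level S ι n ≤ glued S ι := fun _ hg => ⟨n, hg⟩

lemma level_finite [∀ i, Finite (S i)] [Finite F] (n : ℕ) :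
    ((level S ι n : Subgroup (∀ i, S i)) : Set (∀ i, S i)).Finite := by
  classical
  -- injects into `(∀ i : Fin n, S i) × F`
  choose! f hf using fun (g : ∀ i, S i) (hg : g ∈ level S ι n) => hg
  refine Set.Finite.of_injOn (f := fun g : (∀ i, S i) => ((fun i : Fin n => g i), f g))
    (t := Set.univ) (fun _ _ => Set.mem_univ _) ?_ Set.finite_univ
  intro g hg g' hg' h
  simp only [Prod.mk.injEq] at h
  obtain ⟨h1, h2⟩ := h
  funext i
  by_cases hi : i < n
  · exact congrFun h1 ⟨i, hi⟩
  · rw [hf g hg i (not_lt.mp hi), hf g' hg' i (not_lt.mp hi), h2]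

lemma mulSingle_mem_glued [DecidableEq ℕ] (i : ℕ) (s : S i) : Pi.mulSingle i s ∈ glued S ι := by
  refine ⟨i + 1, 1, fun j hj => ?_⟩
  rw [Pi.mulSingle_eq_of_ne (by omega)]
  simp

lemma const_mem_glued (f : F) : (fun i => ι i f) ∈ glued S ι := ⟨0, f, fun _ _ => rfl⟩

end

/-- The gluing theorem. -/
theorem glue (S : ℕ → Type) [∀ i, Group (S i)] [∀ i, Finite (S i)] {F : Type} [Group F] [Finite F]
    (ι : ∀ i, F →* S i) (p : ℕ → ℕ)
    (hι : ∀ i, Injective (ι i))
    (hcop : ∀ i j, i ≠ j → (Nat.card (S j)).Coprime (p i))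
    (hcent : ∀ i, ∀ s : S i, (∀ u : S i, u ^ p i = 1 → s * u = u * s) → s = 1)
    (hnontriv : ∀ i, Nontrivial (S i))
    (hcompl : ∀ i, ∀ φ : S i ≃* S i, ∃ t : S i, ∀ s, φ s = t * s * t⁻¹)
    (hnorm : ∀ i, ∀ t : S i, (∀ f : F, ∃ f' : F, t * ι i f * t⁻¹ = ι i f') → ∃ f : F, t = ι i f)
    (hZ : ∀ z : F, (∀ f : F, z * f = f * z) → z = 1) :
    ∃ (G : Type) (_ : Group G), Countable G ∧ Infinite G ∧
      (∀ s : Finset G, ((Subgroup.closure (s : Set G) : Subgroup G) : Set G).Finite) ∧
      Subgroup.center G = ⊥ ∧
      ∀ φ : MulAut G, ∃ g : G, φ = MulAut.conj g := by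
  classical
  refine ⟨glued S ι, inferInstance, ?_, ?_, ?_, ?_, ?_⟩
  · -- countable
    have : ((glued S ι : Subgroup (∀ i, S i)) : Set (∀ i, S i)) = ⋃ n, (level S ι n : Set _) := by
      ext g
      simp only [SetLike.mem_coe, Set.mem_iUnion]
      exact Iff.rfl
    have hc : ((glued S ι : Subgroup (∀ i, S i)) : Set (∀ i, S i)).Countable := by
      rw [this]
      exact Set.countable_iUnion fun n => (level_finite n).countable
    exact hc.to_subtype
  · -- infinite
    choose x hx using fun i => exists_ne (1 : S i)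
    refine Infinite.of_injective
      (fun i : ℕ => (⟨Pi.mulSingle i (x i), mulSingle_mem_glued i (x i)⟩ : glued S ι)) ?_
    intro i j h
    by_contra hij
    have h1 := congrFun (congrArg Subtype.val h) i
    simp only [Pi.mulSingle_eq_same, Pi.mulSingle_eq_of_ne hij] at h1
    exact hx i h1
  · -- locally finite
    intro s
    -- find a common level
    have hlev : ∃ n, ∀ g ∈ s, (g : ∀ i, S i) ∈ level S ι n := by
      induction s using Finset.induction_on with
      | empty => exact ⟨0, by simp⟩
      | insert a s _ ih =>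
        obtain ⟨n, hn⟩ := ih
        obtain ⟨m, hm⟩ := a.2
        refine ⟨max n m, fun g hg => ?_⟩
        rcases Finset.mem_insert.mp hg with rfl | hg
        · exact level_mono (le_max_right _ _) hm
        · exact level_mono (le_max_left _ _) (hn g hg)
    obtain ⟨n, hn⟩ := hlev
    have hle : Subgroup.closure (s : Set (glued S ι)) ≤ (level S ι n).comap (glued S ι).subtype := by
      rw [Subgroup.closure_le]
      intro g hg
      exact hn g hg
    have hfin : ((fun g : glued S ι => (g : ∀ i, S i)) ⁻¹'
        ((level S ι n : Subgroup (∀ i, S i)) : Set (∀ i, S i))).Finite :=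
      Set.Finite.preimage (Subtype.val_injective.injOn) (level_finite n)
    exact hfin.subset fun g hg => hle hg
  · -- centre
    rw [eq_bot_iff]
    intro z hz
    rw [Subgroup.mem_center_iff] at hz
    rw [Subgroup.mem_bot]
    apply Subtype.ext
    funext i
    refine hcent i _ fun u _ => ?_
    have := congrFun (congrArg Subtype.val (hz ⟨Pi.mulSingle i u, mulSingle_mem_glued i u⟩)) i
    simpa using this.symm
  · -- automorphisms
    intro φ
    -- Step 2
    have key : ∀ (ψ : MulAut (glued S ι)) (i : ℕ) (g : glued S ι), (g : ∀ i, S i) i = 1 →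
        (ψ g : ∀ i, S i) i = 1 := by
      intro ψ i g hg
      refine hcent i _ fun u hu => ?_
      set U : glued S ι := ⟨Pi.mulSingle i u, mulSingle_mem_glued i u⟩ with hU
      have hUp : U ^ p i = 1 := by
        apply Subtype.ext
        simp only [hU, SubmonoidClass.mk_pow, ← Pi.mulSingle_pow, hu, Pi.mulSingle_one]
        rfl
      set V := ψ.symm U with hV
      have hVp : V ^ p i = 1 := by rw [hV, ← map_pow, hUp, map_one]
      have hVj : ∀ j, j ≠ i → (V : ∀ i, S i) j = 1 := by
        intro j hj
        have h1 : ((V : ∀ i, S i) j) ^ p i = 1 := by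
          have := congrFun (congrArg Subtype.val hVp) j
          simpa using this
        have h2 : orderOf ((V : ∀ i, S i) j) ∣ p i := orderOf_dvd_of_pow_eq_one h1
        have h3 : orderOf ((V : ∀ i, S i) j) ∣ Nat.card (S j) := orderOf_dvd_natCard _
        have h4 := Nat.Coprime.eq_one_of_dvd
          ((hcop i j hj.symm).coprime_dvd_left h3) h2
        exact orderOf_eq_one_iff.mp h4
      have hcomm : g * V = V * g := by
        apply Subtype.ext
        funext j
        by_cases hj : j = i
        · subst hj
          simp [hg]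
        · simp [hVj j hj]
      have h5 : ψ g * U = U * ψ g := by
        have := congrArg ψ hcomm
        simpa [hV] using this
      have := congrFun (congrArg Subtype.val h5) i
      simpa [hU] using this
    -- the coordinate automorphisms
    have hα : ∀ i, ∃ t : S i, ∀ g : glued S ι,
        (φ g : ∀ i, S i) i = t * (g : ∀ i, S i) i * t⁻¹ := by
      intro i
      let e : S i →* glued S ι :=
        { toFun := fun s => ⟨Pi.mulSingle i s, mulSingle_mem_glued i s⟩
          map_one' := by
            apply Subtype.ext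
            simp
          map_mul' := fun a b => by
            apply Subtype.ext
            simp [Pi.mulSingle_mul] }
      have he : ∀ s, ((e s : glued S ι) : ∀ i, S i) i = s := fun s => by simp [e]
      let π : glued S ι →* S i := (Pi.evalMonoidHom S i).comp (glued S ι).subtype
      have hπ : ∀ g : glued S ι, π g = (g : ∀ i, S i) i := fun g => rfl
      let α : S i →* S i := π.comp (φ.toMonoidHom.comp e)
      have hαs : ∀ s, α s = (φ (e s) : ∀ i, S i) i := fun s => rfl
      have hinj : Injective α := by
        rw [injective_iff_map_eq_one]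
        intro s hs
        have := key φ.symm i (φ (e s)) hs
        rw [MulEquiv.symm_apply_apply, he] at this
        exact this
      have hbij : Bijective α := ⟨hinj, Finite.surjective_of_injective hinj⟩
      obtain ⟨t, ht⟩ := hcompl i (MulEquiv.ofBijective α hbij)
      refine ⟨t, fun g => ?_⟩
      have h1 : g = e ((g : ∀ i, S i) i) * ((e ((g : ∀ i, S i) i))⁻¹ * g) := by group
      have h2 : (((e ((g : ∀ i, S i) i))⁻¹ * g : glued S ι) : ∀ i, S i) i = 1 := by
        simp [he]
      have h3 := key φ i _ h2
      have h4 : (φ g : ∀ i, S i) i = α ((g : ∀ i, S i) i) := by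
        conv_lhs => rw [h1]
        rw [map_mul, Subgroup.coe_mul, Pi.mul_apply, h3, mul_one]
        rfl
      rw [h4]
      exact ht _
    choose t ht using hα
    have htG : t ∈ glued S ι := by
      -- common level
      have hex : ∀ f : F, ∃ n, ∃ f' : F, ∀ i, n ≤ i → t i * ι i f * (t i)⁻¹ = ι i f' := by
        intro f
        obtain ⟨n, f', h⟩ := (φ ⟨_, const_mem_glued (ι := ι) f⟩).2
        refine ⟨n, f', fun i hi => ?_⟩
        rw [← h i hi, ht]
      choose n σ hσ using hex
      have : ∃ N, ∀ f, n f ≤ N := by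
        cases nonempty_fintype F
        exact ⟨Finset.univ.sup n, fun f => Finset.le_sup (Finset.mem_univ f)⟩
      obtain ⟨N, hN⟩ := this
      have hσ' : ∀ f, ∀ i, N ≤ i → t i * ι i f * (t i)⁻¹ = ι i (σ f) :=
        fun f i hi => hσ f i ((hN f).trans hi)
      have hs : ∀ i, N ≤ i → ∃ s : F, t i = ι i s := fun i hi =>
        hnorm i (t i) fun f => ⟨σ f, hσ' f i hi⟩
      choose! s hs using hs
      have hsσ : ∀ i, N ≤ i → ∀ f, s i * f * (s i)⁻¹ = σ f := by
        intro i hi f
        apply hι i
        rw [← hσ' f i hi, hs i hi]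
        simp
      refine ⟨N, s N, fun i hi => ?_⟩
      rw [hs i hi]
      congr 1
      have hz : (s N)⁻¹ * s i = 1 := by
        refine hZ _ fun f => ?_
        have h1 := hsσ i hi f
        rw [← hsσ N le_rfl f] at h1
        have h2 : s i * f = s N * f * (s N)⁻¹ * s i := by
          rw [← h1]; group
        rw [mul_assoc, h2]; group
      have := congrArg (fun x => s N * x) hz
      simpa using this
    refine ⟨⟨t, htG⟩, ?_⟩
    ext g : 1
    apply Subtype.ext
    funext i
    rw [ht]
    rfl

end Pool.Agent.Helper38.Glue
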