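import Mathlib

set_option autoImplicit false

namespace Pool.Agent.Helper38.Moebius

open OnePoint Matrix

section field

variable {K : Type} [Field K] [DecidableEq K]

/-- The permutation of the projective line given by an invertible matrix. -/
noncomputable def mk (a b c d : K) (h : a * d - b * c ≠ 0) : Equiv.Perm (OnePoint K) :=
  MulAction.toPermHom (GL (Fin 2) K) (OnePoint K)
    (GeneralLinearGroup.mkOfDetNeZero !![a, b; c, d] (by rwa [det_fin_two_of]))

/-- The group of Moebius transformations of the projective line. -/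
noncomputable def Mob (K : Type) [Field K] [DecidableEq K] : Subgroup (Equiv.Perm (OnePoint K)) :=
  (MulAction.toPermHom (GL (Fin 2) K) (OnePoint K)).range

omit [DecidableEq K] in
lemma mkGL_apply (A : Matrix (Fin 2) (Fin 2) K) (h : A.det ≠ 0) (i j : Fin 2) :
    (GeneralLinearGroup.mkOfDetNeZero A h) i j = A i j := rfl

lemma mk_mem (a b c d : K) (h : a * d - b * c ≠ 0) : mk a b c d h ∈ Mob K := ⟨_, rfl⟩

lemma mk_infty (a b c d : K) (h : a * d - b * c ≠ 0) :
    mk a b c d h ∞ = if c = 0 then ∞ else ((a / c : K) : OnePoint K) := by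
  simp only [mk, MulAction.toPermHom_apply, MulAction.toPerm_apply, smul_infty_eq_ite, mkGL_apply]
  simp

lemma mk_some (a b c d : K) (h : a * d - b * c ≠ 0) (x : K) :
    mk a b c d h (x : OnePoint K) =
      if c * x + d = 0 then ∞ else (((a * x + b) / (c * x + d) : K) : OnePoint K) := by
  simp only [mk, MulAction.toPermHom_apply, MulAction.toPerm_apply, smul_some_eq_ite, mkGL_apply]
  simp

lemma exists_mk {g : Equiv.Perm (OnePoint K)} (hg : g ∈ Mob K) :
    ∃ a b c d h, g = mk a b c d h := by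
  obtain ⟨M, rfl⟩ := hg
  have hdet : (M : Matrix (Fin 2) (Fin 2) K).det ≠ 0 := M.det_ne_zero
  rw [det_fin_two] at hdet
  refine ⟨M 0 0, M 0 1, M 1 0, M 1 1, hdet, ?_⟩
  unfold mk
  congr 1
  ext i j
  rw [mkGL_apply]
  fin_cases i <;> fin_cases j <;> simp

omit [Field K] [DecidableEq K] in
lemma perm_ext {g h : Equiv.Perm (OnePoint K)} (h0 : g ∞ = h ∞) (h1 : ∀ x : K, g x = h x) :
    g = h := by
  ext x : 1
  induction x using OnePoint.rec with
  | infty => exact h0
  | coe x => exact h1 x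

omit [Field K] [DecidableEq K] in
lemma inv_apply_self' (g : Equiv.Perm (OnePoint K)) (x : OnePoint K) : g⁻¹ (g x) = x := by
  rw [← Equiv.Perm.mul_apply, inv_mul_cancel]; rfl

/-- An element of the Moebius group fixing infinity is affine. -/
lemma exists_affine {g : Equiv.Perm (OnePoint K)} (hg : g ∈ Mob K) (h : g ∞ = ∞) :
    ∃ a b : K, a ≠ 0 ∧ ∀ x : K, g x = ((a * x + b : K) : OnePoint K) := by
  obtain ⟨a, b, c, d, hd, rfl⟩ := exists_mk hg
  rw [mk_infty] at h
  have hc : c = 0 := by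
    by_contra hc
    simp [hc] at h
  subst hc
  have ha : a ≠ 0 := by rintro rfl; simp at hd
  have hd' : d ≠ 0 := by rintro rfl; simp at hd
  refine ⟨a / d, b / d, div_ne_zero ha hd', fun x => ?_⟩
  rw [mk_some]
  simp only [zero_mul, zero_add, hd', if_false]
  congr 1
  field_simp

/-- Translation by `b`. -/
noncomputable def tr (b : K) : Equiv.Perm (OnePoint K) := mk 1 b 0 1 (by simp)

/-- Scaling by `a`. -/
noncomputable def sc (a : K) (ha : a ≠ 0) : Equiv.Perm (OnePoint K) := mk a 0 0 1 (by simpa)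

/-- Inversion. -/
noncomputable def iv (K : Type) [Field K] [DecidableEq K] : Equiv.Perm (OnePoint K) :=
  mk 0 1 1 0 (by simp)

lemma tr_mem (b : K) : tr b ∈ Mob K := mk_mem _ _ _ _ _
lemma sc_mem (a : K) (ha : a ≠ 0) : sc a ha ∈ Mob K := mk_mem _ _ _ _ _
lemma iv_mem : iv K ∈ Mob K := mk_mem _ _ _ _ _

@[simp] lemma tr_infty (b : K) : tr b ∞ = ∞ := by simp [tr, mk_infty]
@[simp] lemma tr_some (b x : K) : tr b (x : OnePoint K) = ((x + b : K) : OnePoint K) := by
  simp [tr, mk_some]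
@[simp] lemma sc_infty (a : K) (ha : a ≠ 0) : sc a ha ∞ = ∞ := by simp [sc, mk_infty]
@[simp] lemma sc_some (a : K) (ha : a ≠ 0) (x : K) :
    sc a ha (x : OnePoint K) = ((a * x : K) : OnePoint K) := by
  simp [sc, mk_some]
@[simp] lemma iv_infty : iv K ∞ = ((0 : K) : OnePoint K) := by simp [iv, mk_infty]
lemma iv_some (x : K) : iv K (x : OnePoint K) =
    if x = 0 then ∞ else ((x⁻¹ : K) : OnePoint K) := by
  simp [iv, mk_some]
@[simp] lemma iv_zero : iv K ((0 : K) : OnePoint K) = ∞ := by simp [iv_some]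
lemma iv_some_ne {x : K} (hx : x ≠ 0) : iv K (x : OnePoint K) = ((x⁻¹ : K) : OnePoint K) := by
  simp [iv_some, hx]
@[simp] lemma iv_iv : iv K * iv K = 1 := by
  apply perm_ext
  · simp
  · intro x
    rcases eq_or_ne x 0 with rfl | hx
    · simp
    · simp [iv_some_ne hx, iv_some_ne (inv_ne_zero hx)]

@[simp] lemma iv_iv_apply (x : OnePoint K) : iv K (iv K x) = x := by
  rw [← Equiv.Perm.mul_apply, iv_iv]; rfl

lemma tr_add (a b : K) : tr (a + b) = tr a * tr b := by
  apply perm_ext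
  · simp
  · intro x; simp [add_assoc, add_comm b a]

@[simp] lemma tr_zero : tr (0 : K) = 1 := by
  apply perm_ext
  · simp
  · intro x; simp

lemma tr_neg (a : K) : tr (-a) = (tr a)⁻¹ := by
  rw [eq_inv_iff_mul_eq_one, ← tr_add]; simp

lemma tr_pow (a : K) (n : ℕ) : tr a ^ n = tr (n * a) := by
  induction n with
  | zero => simp
  | succ n ih => rw [pow_succ, ih, ← tr_add]; congr 1; push_cast; ring

lemma tr_injective : Function.Injective (tr : K → Equiv.Perm (OnePoint K)) := by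
  intro a b h
  have := congrArg (fun g : Equiv.Perm (OnePoint K) => g ((0 : K) : OnePoint K)) h
  simpa using this

lemma sc_mul_tr (a : K) (ha : a ≠ 0) (b : K) : sc a ha * tr b = tr (a * b) * sc a ha := by
  apply perm_ext
  · simp
  · intro x; simp [mul_add]

lemma sc_mul_iv (a : K) (ha : a ≠ 0) : sc a ha * iv K = iv K * sc a⁻¹ (inv_ne_zero ha) := by
  apply perm_ext
  · simp
  · intro x
    rcases eq_or_ne x 0 with rfl | hx
    · simp
    · have h1 : a⁻¹ * x ≠ 0 := mul_ne_zero (inv_ne_zero ha) hx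
      simp only [Equiv.Perm.mul_apply, iv_some_ne hx, sc_some, iv_some_ne h1, mul_inv, inv_inv]

lemma sc_neg_one_mul_iv : sc (-1 : K) (by simp) * iv K = iv K * sc (-1) (by simp) := by
  rw [sc_mul_iv]
  congr 2
  norm_num

lemma iv_inv : (iv K)⁻¹ = iv K := by
  rw [inv_eq_iff_mul_eq_one, iv_iv]

/-- The Moebius group is transitive. -/
lemma exists_to_infty (x : OnePoint K) : ∃ g ∈ Mob K, g x = ∞ := by
  induction x using OnePoint.rec with
  | infty => exact ⟨1, one_mem _, rfl⟩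
  | coe x => exact ⟨iv K * tr (-x), mul_mem iv_mem (tr_mem _), by simp⟩

end field

section prime

variable {p : ℕ} [Fact p.Prime]

/-- A nontrivial permutation of the projective line of order `p` has exactly one fixed point. -/
lemma existsUnique_fixed {g : Equiv.Perm (OnePoint (ZMod p))} (hg : g ^ p = 1) (h1 : g ≠ 1) :
    ∃ x, g x = x ∧ ∀ y, g y = y → y = x := by
  classical
  have hp := (Fact.out : p.Prime)
  have hmod := Equiv.Perm.card_compl_support_modEq (σ := g) (p := p) (n := 1) (by simpa using hg)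
  have hcard : Fintype.card (OnePoint (ZMod p)) = p + 1 := by
    have : Fintype.card (OnePoint (ZMod p)) = Fintype.card (Option (ZMod p)) := rfl
    rw [this, Fintype.card_option, ZMod.card]
  have hle : g.supportᶜ.card ≤ p + 1 := by
    rw [← hcard]; exact Finset.card_le_univ _
  have hne : g.supportᶜ.card ≠ p + 1 := by
    intro h
    rw [← hcard, Finset.card_eq_iff_eq_univ] at h
    apply h1
    ext y : 1
    have : y ∈ g.supportᶜ := by rw [h]; exact Finset.mem_univ _
    simpa using this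
  have hone : g.supportᶜ.card = 1 := by
    rw [hcard] at hmod
    have h2 : g.supportᶜ.card ≡ 1 [MOD p] := hmod.trans (by simp [Nat.ModEq])
    have h3 : g.supportᶜ.card ≤ p := by omega
    have h4 := hp.two_le
    rcases Nat.lt_or_ge g.supportᶜ.card p with h5 | h5
    · exact Nat.ModEq.eq_of_lt_of_lt h2 h5 (by omega)
    · have : g.supportᶜ.card = p := le_antisymm h3 h5
      rw [this] at h2
      have := (Nat.modEq_iff_dvd' (by omega : 1 ≤ p)).mp h2.symm
      have := Nat.le_of_dvd (by omega) this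
      omega
  obtain ⟨x, hx⟩ := Finset.card_eq_one.mp hone
  have hfix : ∀ y, g y = y ↔ y = x := by
    intro y
    have : y ∈ g.supportᶜ ↔ y ∈ ({x} : Finset _) := by rw [hx]
    simpa using this
  exact ⟨x, (hfix x).mpr rfl, fun y hy => (hfix y).mp hy⟩

/-- Elements of order dividing `p` in the Moebius group that fix infinity are translations. -/
lemma eq_tr_of_fixes {g : Equiv.Perm (OnePoint (ZMod p))} (hg : g ∈ Mob (ZMod p))
    (hgp : g ^ p = 1) (h : g ∞ = ∞) : ∃ b, g = tr b := by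
  by_cases h1 : g = 1
  · exact ⟨0, by simp [h1]⟩
  obtain ⟨a, b, ha, hab⟩ := exists_affine hg h
  obtain ⟨x, hx, huniq⟩ := existsUnique_fixed hgp h1
  have hinf : ∞ = x := huniq _ h
  have ha1 : a = 1 := by
    by_contra ha1
    have ha2 : 1 - a ≠ 0 := sub_ne_zero.mpr (Ne.symm ha1)
    have : g ((b / (1 - a) : ZMod p) : OnePoint (ZMod p)) = ((b / (1 - a) : ZMod p) : OnePoint _) := by
      rw [hab]
      congr 1
      field_simp
      ring
    have := huniq _ this
    rw [← hinf] at this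
    exact OnePoint.coe_ne_infty _ this
  subst ha1
  refine ⟨b, perm_ext (by simp [h]) fun x => by simp [hab]⟩

lemma tr_pow_p (b : ZMod p) : tr b ^ p = 1 := by
  rw [tr_pow]; simp

lemma tr_ne_one {b : ZMod p} (hb : b ≠ 0) : tr b ≠ 1 := by
  intro h
  rw [← tr_zero] at h
  exact hb (tr_injective h)

/-- For each point there is an element of order `p` with that fixed point. -/
lemma exists_order_p (x : OnePoint (ZMod p)) :
    ∃ v ∈ Mob (ZMod p), v ^ p = 1 ∧ v ≠ 1 ∧ v x = x := by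
  obtain ⟨g, hg, hgx⟩ := exists_to_infty x
  refine ⟨g⁻¹ * tr 1 * g, mul_mem (mul_mem (inv_mem hg) (tr_mem _)) hg, ?_, ?_, ?_⟩
  · have : g⁻¹ * tr 1 * g = MulAut.conj g⁻¹ (tr 1) := by simp
    rw [this, ← map_pow, tr_pow_p, map_one]
  · intro h
    apply tr_ne_one (one_ne_zero : (1 : ZMod p) ≠ 0)
    have : tr (1 : ZMod p) = g * (g⁻¹ * tr 1 * g) * g⁻¹ := by group
    rw [this, h]; group
  · rw [Equiv.Perm.mul_apply, Equiv.Perm.mul_apply, hgx, tr_infty, Equiv.Perm.inv_eq_iff_eq, hgx]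

lemma fixed_unique {g : Equiv.Perm (OnePoint (ZMod p))} (hg : g ^ p = 1) (h1 : g ≠ 1)
    {x y : OnePoint (ZMod p)} (hx : g x = x) (hy : g y = y) : x = y := by
  obtain ⟨z, _, hz⟩ := existsUnique_fixed hg h1
  rw [hz x hx, hz y hy]

/-- An element commuting with all elements of order `p` is trivial. -/
lemma eq_one_of_commute {s : Equiv.Perm (OnePoint (ZMod p))}
    (h : ∀ u ∈ Mob (ZMod p), u ^ p = 1 → s * u = u * s) : s = 1 := by
  ext x : 1
  obtain ⟨v, hv, hvp, hv1, hvx⟩ := exists_order_p x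
  have h1 := h v hv hvp
  refine fixed_unique hvp hv1 ?_ hvx
  rw [← Equiv.Perm.mul_apply, ← h1, Equiv.Perm.mul_apply, hvx]

lemma two_ne_zero' (hp : p ≠ 2) : (2 : ZMod p) ≠ 0 := by
  have hp' := (Fact.out : p.Prime)
  intro h
  have : ((2 : ℕ) : ZMod p) = 0 := by exact_mod_cast h
  rw [ZMod.natCast_eq_zero_iff] at this
  exact hp ((Nat.prime_dvd_prime_iff_eq hp' Nat.prime_two).mp this)

/-- An automorphism of the Moebius group fixing `x ↦ x + 1` and `x ↦ -x` is trivial. -/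
lemma aut_trivial (hp : p ≠ 2) (φ : Mob (ZMod p) ≃* Mob (ZMod p))
    (hu : φ ⟨tr 1, tr_mem _⟩ = ⟨tr 1, tr_mem _⟩)
    (hh : φ ⟨sc (-1) (by simp), sc_mem _ _⟩ = ⟨sc (-1) (by simp), sc_mem _ _⟩) (g : Mob (ZMod p)) :
    φ g = g := by
  have htr : ∀ b : ZMod p, φ ⟨tr b, tr_mem _⟩ = ⟨tr b, tr_mem _⟩ := by
    intro b
    have : (⟨tr b, tr_mem _⟩ : Mob (ZMod p)) = ⟨tr 1, tr_mem _⟩ ^ b.val := by
      apply Subtype.ext
      simp [tr_pow]
    rw [this, map_pow, hu]
  -- order p elements: transfer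
  have hpow : ∀ v : Mob (ZMod p), (v : Equiv.Perm (OnePoint (ZMod p))) ^ p = 1 →
      ((φ v : Mob (ZMod p)) : Equiv.Perm (OnePoint (ZMod p))) ^ p = 1 := by
    intro v hv
    have h1 : v ^ p = 1 := Subtype.ext (by simpa using hv)
    have h2 : (φ v) ^ p = 1 := by rw [← map_pow, h1, map_one]
    simpa using congrArg Subtype.val h2
  have hne : ∀ v : Mob (ZMod p), (v : Equiv.Perm (OnePoint (ZMod p))) ≠ 1 →
      ((φ v : Mob (ZMod p)) : Equiv.Perm (OnePoint (ZMod p))) ≠ 1 := by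
    intro v hv h
    apply hv
    have h1 : φ v = 1 := Subtype.ext h
    have h2 : v = 1 := by simpa using h1
    rw [h2]; rfl
  have hinfty : ∀ v : Mob (ZMod p), (v : Equiv.Perm (OnePoint (ZMod p))) ^ p = 1 →
      (v : Equiv.Perm (OnePoint (ZMod p))) ∞ = ∞ → φ v = v := by
    intro v hv hv'
    obtain ⟨b, hb⟩ := eq_tr_of_fixes v.2 hv hv'
    have : v = ⟨tr b, tr_mem _⟩ := Subtype.ext hb
    rw [this, htr]
  have hzero : ∀ v : Mob (ZMod p), (v : Equiv.Perm (OnePoint (ZMod p))) ^ p = 1 →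
      (v : Equiv.Perm (OnePoint (ZMod p))) ≠ 1 →
      (v : Equiv.Perm (OnePoint (ZMod p))) ((0 : ZMod p) : OnePoint (ZMod p)) =
        ((0 : ZMod p) : OnePoint (ZMod p)) →
      ((φ v : Mob (ZMod p)) : Equiv.Perm (OnePoint (ZMod p))) ((0 : ZMod p) : OnePoint (ZMod p)) =
        ((0 : ZMod p) : OnePoint (ZMod p)) := by
    intro v hv hv1 hv0
    -- `v` is inverted by `x ↦ -x`
    obtain ⟨b, hb⟩ : ∃ b, iv (ZMod p) * (v : Equiv.Perm (OnePoint (ZMod p))) * iv (ZMod p) = tr b := by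
      refine eq_tr_of_fixes (mul_mem (mul_mem iv_mem v.2) iv_mem) ?_ ?_
      · have h1 : iv (ZMod p) * (v : Equiv.Perm (OnePoint (ZMod p))) * iv (ZMod p) =
            MulAut.conj (iv (ZMod p)) (v : Equiv.Perm (OnePoint (ZMod p))) := by
          rw [MulAut.conj_apply, iv_inv]
        rw [h1, ← map_pow, hv, map_one]
      · simp [hv0]
    have hvb : (v : Equiv.Perm (OnePoint (ZMod p))) = iv (ZMod p) * tr b * iv (ZMod p) := by
      rw [← hb]
      simp only [mul_assoc, iv_iv, mul_one]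
      rw [← mul_assoc, iv_iv, one_mul]
    have hinv : (⟨sc (-1) (by simp), sc_mem _ _⟩ : Mob (ZMod p)) * v = v⁻¹ *
        ⟨sc (-1) (by simp), sc_mem _ _⟩ := by
      rw [eq_inv_mul_iff_mul_eq]
      apply Subtype.ext
      simp only [Subgroup.coe_mul]
      rw [hvb]
      calc iv (ZMod p) * tr b * iv (ZMod p) * (sc (-1) (by simp) * (iv (ZMod p) * tr b * iv (ZMod p)))
          = iv (ZMod p) * tr b * iv (ZMod p) * ((sc (-1) (by simp) * iv (ZMod p)) * tr b * iv (ZMod p)) := by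
            simp only [mul_assoc]
        _ = iv (ZMod p) * tr b * (iv (ZMod p) * iv (ZMod p)) * (sc (-1) (by simp) * tr b) * iv (ZMod p) := by
            rw [sc_neg_one_mul_iv]; simp only [mul_assoc]
        _ = iv (ZMod p) * (tr b * tr (-1 * b)) * (sc (-1) (by simp) * iv (ZMod p)) := by
            rw [iv_iv, sc_mul_tr]; simp only [mul_assoc, mul_one]
        _ = sc (-1) (by simp) := by
            rw [← tr_add, sc_neg_one_mul_iv]
            simp only [neg_mul, one_mul, add_neg_cancel, tr_zero, mul_one]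
            rw [← mul_assoc, iv_iv, one_mul]
    have hinv' : (⟨sc (-1) (by simp), sc_mem _ _⟩ : Mob (ZMod p)) * φ v = (φ v)⁻¹ *
        ⟨sc (-1) (by simp), sc_mem _ _⟩ := by
      have := congrArg φ hinv
      rwa [map_mul, map_mul, map_inv, hh] at this
    obtain ⟨z, hz, hzu⟩ := existsUnique_fixed (hpow v hv) (hne v hv1)
    have hz' : (sc (-1) (by simp) : Equiv.Perm (OnePoint (ZMod p))) z = z := by
      apply hzu
      have h1 := congrArg (fun g : Mob (ZMod p) => (g : Equiv.Perm (OnePoint (ZMod p))) z) hinv'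
      simp only [Subgroup.coe_mul, Equiv.Perm.mul_apply, hz, Subgroup.coe_inv] at h1
      rw [eq_comm, Equiv.Perm.inv_eq_iff_eq] at h1
      exact h1.symm
    induction z using OnePoint.rec with
    | infty =>
      exfalso
      obtain ⟨b', hb'⟩ := eq_tr_of_fixes (φ v).2 (hpow v hv) hz
      have h1 : φ v = φ ⟨tr b', tr_mem _⟩ := by
        rw [htr]; exact Subtype.ext hb'
      have h2 := φ.injective h1
      rw [h2] at hv0 hv1
      simp only [tr_some, zero_add, OnePoint.coe_eq_coe] at hv0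
      apply hv1
      simp [hv0]
    | coe x =>
      rw [sc_some, OnePoint.coe_eq_coe] at hz'
      have h2 : (2 : ZMod p) * x = 0 := by linear_combination -hz'
      have hx : x = 0 := by
        rcases mul_eq_zero.mp h2 with h | h
        · exact absurd h (two_ne_zero' hp)
        · exact h
      rw [hx] at hz
      exact hz
  -- general points
  have hgen : ∀ (y : OnePoint (ZMod p)) (v : Mob (ZMod p)),
      (v : Equiv.Perm (OnePoint (ZMod p))) ^ p = 1 → (v : Equiv.Perm (OnePoint (ZMod p))) ≠ 1 →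
      (v : Equiv.Perm (OnePoint (ZMod p))) y = y →
      ((φ v : Mob (ZMod p)) : Equiv.Perm (OnePoint (ZMod p))) y = y := by
    intro y v hv hv1 hvy
    induction y using OnePoint.rec with
    | infty => rw [hinfty v hv hvy]; exact hvy
    | coe y =>
      set T : Mob (ZMod p) := ⟨tr y, tr_mem _⟩ with hT
      have h0 : (T : Equiv.Perm (OnePoint (ZMod p))) ((0 : ZMod p) : OnePoint (ZMod p)) = y := by
        simp [hT]
      have h1 := hzero (T⁻¹ * v * T) ?_ ?_ ?_
      · rw [map_mul, map_mul, map_inv, hT, htr, ← hT] at h1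
        simp only [Subgroup.coe_mul, Equiv.Perm.mul_apply, h0, Subgroup.coe_inv] at h1
        rw [Equiv.Perm.inv_eq_iff_eq, h0] at h1
        exact h1
      · have h2 : T⁻¹ * v * T = MulAut.conj T⁻¹ v := by simp
        have h3 : v ^ p = 1 := Subtype.ext (by simpa using hv)
        have h4 : (T⁻¹ * v * T) ^ p = 1 := by rw [h2, ← map_pow, h3, map_one]
        simpa using congrArg Subtype.val h4
      · intro h
        apply hv1
        have h2 : T⁻¹ * v * T = 1 := Subtype.ext h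
        have h3 : v = T * (T⁻¹ * v * T) * T⁻¹ := by group
        rw [h3, h2]; simp
      · simp only [Subgroup.coe_mul, Equiv.Perm.mul_apply, h0, Subgroup.coe_inv, hvy]
        rw [Equiv.Perm.inv_eq_iff_eq, h0]
  -- conclusion
  apply Subtype.ext
  ext y : 1
  obtain ⟨v0, hv, hvp, hv1, hvy⟩ := exists_order_p y
  set v : Mob (ZMod p) := ⟨v0, hv⟩ with hvdef
  have hvp' : v ^ p = 1 := Subtype.ext (by simpa using hvp)
  have h1 := hgen y v hvp hv1 hvy
  have hcp : ((g * v * g⁻¹ : Mob (ZMod p)) : Equiv.Perm (OnePoint (ZMod p))) ^ p = 1 := by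
    have h2 : g * v * g⁻¹ = MulAut.conj g v := by simp
    have h4 : (g * v * g⁻¹) ^ p = 1 := by rw [h2, ← map_pow, hvp', map_one]
    simpa using congrArg Subtype.val h4
  have hc1 : ((g * v * g⁻¹ : Mob (ZMod p)) : Equiv.Perm (OnePoint (ZMod p))) ≠ 1 := by
    intro h
    apply hv1
    have h2 : g * v * g⁻¹ = 1 := Subtype.ext h
    have h3 : v = g⁻¹ * (g * v * g⁻¹) * g := by group
    have h4 : v = 1 := by rw [h3, h2]; simp
    exact congrArg Subtype.val h4
  have h5 := hgen ((g : Equiv.Perm (OnePoint (ZMod p))) y) (g * v * g⁻¹) hcp hc1 (by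
    simp only [Subgroup.coe_mul, Equiv.Perm.mul_apply, Subgroup.coe_inv, inv_apply_self']
    rw [hvdef]
    exact congrArg _ hvy)
  refine fixed_unique (hpow _ hcp) (hne _ hc1) ?_ h5
  rw [map_mul, map_mul, map_inv]
  simp only [Subgroup.coe_mul, Equiv.Perm.mul_apply, Subgroup.coe_inv, inv_apply_self']
  rw [h1]

/-- Every automorphism of the Moebius group over `ZMod p`, `p` odd, is inner. -/
theorem complete (hp : p ≠ 2) (φ : Mob (ZMod p) ≃* Mob (ZMod p)) :
    ∃ t : Mob (ZMod p), ∀ s, φ s = t * s * t⁻¹ := by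
  obtain ⟨u, hu⟩ : ∃ u : Mob (ZMod p), (u : Equiv.Perm (OnePoint (ZMod p))) = tr 1 :=
    ⟨⟨tr 1, tr_mem _⟩, rfl⟩
  obtain ⟨h, hh⟩ : ∃ h : Mob (ZMod p), (h : Equiv.Perm (OnePoint (ZMod p))) = sc (-1) (by simp) :=
    ⟨⟨sc (-1) (by simp), sc_mem _ _⟩, rfl⟩
  have hup : (u : Equiv.Perm (OnePoint (ZMod p))) ^ p = 1 := by rw [hu]; exact tr_pow_p 1
  have hu1 : (u : Equiv.Perm (OnePoint (ZMod p))) ≠ 1 := by rw [hu]; exact tr_ne_one one_ne_zero
  have hpow : ∀ ψ : Mob (ZMod p) ≃* Mob (ZMod p),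
      ((ψ u : Mob (ZMod p)) : Equiv.Perm (OnePoint (ZMod p))) ^ p = 1 := by
    intro ψ
    have h1 : u ^ p = 1 := Subtype.ext (by simpa using hup)
    have h2 : (ψ u) ^ p = 1 := by rw [← map_pow, h1, map_one]
    simpa using congrArg Subtype.val h2
  have hne : ∀ ψ : Mob (ZMod p) ≃* Mob (ZMod p),
      ((ψ u : Mob (ZMod p)) : Equiv.Perm (OnePoint (ZMod p))) ≠ 1 := by
    intro ψ hv
    apply hu1
    have h1 : ψ u = 1 := Subtype.ext hv
    have h2 : u = 1 := by simpa using h1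
    rw [h2]; rfl
  -- step 1: move the fixed point to infinity
  obtain ⟨y, hy, _⟩ := existsUnique_fixed (hpow φ) (hne φ)
  obtain ⟨g, hg, hgy⟩ := exists_to_infty y
  obtain ⟨φ1, hφ1s⟩ : ∃ φ1 : Mob (ZMod p) ≃* Mob (ZMod p),
      ∀ s, φ1 s = ⟨g, hg⟩ * φ s * ⟨g, hg⟩⁻¹ :=
    ⟨φ.trans (MulAut.conj ⟨g, hg⟩), fun s => by simp⟩
  have h1 : ((φ1 u : Mob (ZMod p)) : Equiv.Perm (OnePoint (ZMod p))) ∞ = ∞ := by
    rw [hφ1s, ← hgy]
    simp only [Subgroup.coe_mul, Equiv.Perm.mul_apply, Subgroup.coe_inv, inv_apply_self']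
    rw [hy]
  obtain ⟨b, hb⟩ := eq_tr_of_fixes (φ1 u).2 (hpow φ1) h1
  have hb0 : b ≠ 0 := by
    rintro rfl
    exact hne φ1 (by rw [hb, tr_zero])
  -- step 2: scale
  obtain ⟨A, hA⟩ : ∃ A : Mob (ZMod p), (A : Equiv.Perm (OnePoint (ZMod p))) =
    sc b⁻¹ (inv_ne_zero hb0) := ⟨⟨sc b⁻¹ (inv_ne_zero hb0), sc_mem _ _⟩, rfl⟩
  obtain ⟨φ2, hφ2s⟩ : ∃ φ2 : Mob (ZMod p) ≃* Mob (ZMod p), ∀ s, φ2 s = A * φ1 s * A⁻¹ :=
    ⟨φ1.trans (MulAut.conj A), fun s => by simp⟩
  have h2 : φ2 u = u := by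
    rw [hφ2s, mul_inv_eq_iff_eq_mul]
    apply Subtype.ext
    simp only [Subgroup.coe_mul, hb, hA, hu]
    rw [sc_mul_tr, inv_mul_cancel₀ hb0]
  -- step 3: the image of `x ↦ -x`
  have hhu : h * u = u⁻¹ * h := by
    apply Subtype.ext
    simp only [Subgroup.coe_mul, Subgroup.coe_inv, hh, hu]
    rw [sc_mul_tr, ← tr_neg]
    congr 2
    ring
  have hhu' : φ2 h * u = u⁻¹ * φ2 h := by
    have := congrArg φ2 hhu
    rwa [map_mul, map_mul, map_inv, h2] at this
  have hh'' : ∀ x : OnePoint (ZMod p), (φ2 h : Equiv.Perm (OnePoint (ZMod p))) (tr 1 x) =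
      (tr (-1)) ((φ2 h : Equiv.Perm (OnePoint (ZMod p))) x) := by
    intro x
    have := congrArg (fun g : Mob (ZMod p) => (g : Equiv.Perm (OnePoint (ZMod p))) x) hhu'
    simp only [Subgroup.coe_mul, Subgroup.coe_inv, hu, Equiv.Perm.mul_apply, ← tr_neg] at this
    exact this
  have h3 : (φ2 h : Equiv.Perm (OnePoint (ZMod p))) ∞ = ∞ := by
    have := hh'' ∞
    rw [tr_infty] at this
    refine fixed_unique (g := tr (-1)) (tr_pow_p _) (tr_ne_one (by simp)) this.symm (by simp)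
  obtain ⟨a, c, ha, hac⟩ := exists_affine (φ2 h).2 h3
  have ha1 : a = -1 := by
    have := hh'' ((0 : ZMod p) : OnePoint (ZMod p))
    rw [tr_some, hac, hac, tr_some, OnePoint.coe_eq_coe] at this
    linear_combination this
  subst ha1
  -- step 4: translate
  obtain ⟨B, hB⟩ : ∃ B : Mob (ZMod p), (B : Equiv.Perm (OnePoint (ZMod p))) = tr (-c / 2) :=
    ⟨⟨tr (-c / 2), tr_mem _⟩, rfl⟩
  obtain ⟨φ3, hφ3s⟩ : ∃ φ3 : Mob (ZMod p) ≃* Mob (ZMod p), ∀ s, φ3 s = B * φ2 s * B⁻¹ :=
    ⟨φ2.trans (MulAut.conj B), fun s => by simp⟩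
  have h4 : φ3 u = u := by
    rw [hφ3s, mul_inv_eq_iff_eq_mul, h2]
    apply Subtype.ext
    simp only [Subgroup.coe_mul, hB, hu, ← tr_add, add_comm]
  have h5 : φ3 h = h := by
    rw [hφ3s, mul_inv_eq_iff_eq_mul]
    apply Subtype.ext
    simp only [Subgroup.coe_mul, hB, hh]
    have htwo := two_ne_zero' hp
    apply perm_ext
    · simp [h3]
    · intro x
      simp only [Equiv.Perm.mul_apply, hac, tr_some, sc_some, OnePoint.coe_eq_coe]
      field_simp
      ring
  have hu' : u = ⟨tr 1, tr_mem _⟩ := Subtype.ext hu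
  have hh' : h = ⟨sc (-1) (by simp), sc_mem _ _⟩ := Subtype.ext hh
  have h6 := aut_trivial hp φ3 (by rw [← hu']; exact h4) (by rw [← hh']; exact h5)
  refine ⟨(B * A * ⟨g, hg⟩)⁻¹, fun s => ?_⟩
  have h7 := h6 s
  rw [hφ3s, hφ2s, hφ1s] at h7
  have h8 : (B * A * ⟨g, hg⟩) * φ s * (B * A * ⟨g, hg⟩)⁻¹ = s := by
    refine Eq.trans ?_ h7
    group
  calc φ s = (B * A * ⟨g, hg⟩)⁻¹ * ((B * A * ⟨g, hg⟩) * φ s * (B * A * ⟨g, hg⟩)⁻¹) *
        (B * A * ⟨g, hg⟩)⁻¹⁻¹ := by group
    _ = _ := by rw [h8]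

end prime

end Pool.Agent.Helper38.Moebius
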